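import Mathlib

/-!
# Numerical consequences
-/

namespace Pool.Agent.H25.AbDeg

/-- The general numerical lemma, ramified case. -/
lemma num_gen (p r : ℕ) (M : ℝ) (hM : 1 ≤ M) (d E J v c : ℕ) (hE : 0 < E) (hJ : 0 < J)
    (hr : 0 < r) (hp : 0 < p) (hpr : 2 ^ r ≤ p) (hd : c * E ≤ d)
    (hnum : (2 : ℝ) ^ (r * 2 * c * E) * 2 ^ (r * p * J) ≤ (p : ℝ) ^ (2 * c * (v * J + E)))
    (h : (p : ℝ) ^ ((v * J + E) * d) ≤ ((2 ^ d * M ^ (J * p + J * p)) ^ r) ^ E) : 2 ≤ M ^ 4 := by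
  by_contra hcon
  push Not at hcon
  have hM0 : 0 < M := by linarith
  have h1 : (p : ℝ) ^ ((v * J + E) * d * 2) ≤ 2 ^ (2 * r * d * E) * (M ^ 4) ^ (r * p * J * E) := by
    calc (p : ℝ) ^ ((v * J + E) * d * 2) = ((p : ℝ) ^ ((v * J + E) * d)) ^ 2 := by rw [← pow_mul]
      _ ≤ (((2 ^ d * M ^ (J * p + J * p)) ^ r) ^ E) ^ 2 := pow_le_pow_left₀ (by positivity) h 2
      _ = _ := by
        simp only [mul_pow, ← pow_mul]
        congr 2 <;> ring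
  have h2 : (M ^ 4) ^ (r * p * J * E) < 2 ^ (r * p * J * E) :=
    pow_lt_pow_left₀ hcon (by positivity) (by positivity)
  have h3 : (p : ℝ) ^ ((v * J + E) * d * 2) < 2 ^ (2 * r * d * E) * 2 ^ (r * p * J * E) :=
    h1.trans_lt (mul_lt_mul_of_pos_left h2 (by positivity))
  have h4 : (2 : ℝ) ^ (2 * r * d * E) * 2 ^ (r * p * J * E) ≤ (p : ℝ) ^ ((v * J + E) * d * 2) := by
    obtain ⟨t, rfl⟩ := Nat.exists_eq_add_of_le hd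
    have e1 : (2 : ℝ) ^ (2 * r * (c * E + t) * E) * 2 ^ (r * p * J * E) =
        (2 ^ r) ^ (2 * E * t) * (2 ^ (r * 2 * c * E) * 2 ^ (r * p * J)) ^ E := by
      simp only [← pow_mul, ← pow_add]
      congr 1; ring
    have e2 : (p : ℝ) ^ ((v * J + E) * (c * E + t) * 2) =
        (p : ℝ) ^ (2 * (v * J + E) * t) * ((p : ℝ) ^ (2 * c * (v * J + E))) ^ E := by
      simp only [← pow_mul, ← pow_add]
      congr 1; ring
    rw [e1, e2]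
    have hp1 : (1 : ℝ) ≤ p := by exact_mod_cast hp
    have hpr' : (2 : ℝ) ^ r ≤ p := by exact_mod_cast hpr
    have e3 : ((2 : ℝ) ^ r) ^ (2 * E * t) ≤ (p : ℝ) ^ (2 * (v * J + E) * t) :=
      calc ((2 : ℝ) ^ r) ^ (2 * E * t) ≤ (p : ℝ) ^ (2 * E * t) :=
            pow_le_pow_left₀ (by positivity) hpr' _
        _ ≤ _ := pow_le_pow_right₀ hp1 (by
            refine Nat.mul_le_mul_right _ (Nat.mul_le_mul_left _ ?_)
            omega)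
    exact mul_le_mul e3 (pow_le_pow_left₀ (by positivity) hnum E) (by positivity) (by positivity)
  linarith

lemma num_two_frob (M : ℝ) (hM : 1 ≤ M) (d : ℕ) (hd : 6 ≤ d)
    (h : ((5 : ℕ) : ℝ) ^ ((1 + 1) * d) ≤ (2 ^ d * M ^ (5 * 5 ^ 1 + 5 ^ 1)) ^ 2) : 2 ≤ M ^ 4 := by
  by_contra hcon
  push Not at hcon
  have hM0 : 0 < M := by linarith
  have h1 : (2 ^ d * M ^ (5 * 5 ^ 1 + 5 ^ 1)) ^ 2 = (4 : ℝ) ^ d * (M ^ 4) ^ 15 := by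
    have : (4 : ℝ) = 2 ^ 2 := by norm_num
    rw [this]
    simp only [mul_pow, ← pow_mul]
    congr 2; ring
  have h2 : (M ^ 4) ^ 15 < 2 ^ 15 := pow_lt_pow_left₀ hcon (by positivity) (by norm_num)
  have h3 : ((5 : ℕ) : ℝ) ^ ((1 + 1) * d) = 4 ^ d * (25 / 4) ^ d := by
    rw [← mul_pow, pow_mul]; norm_num
  rw [h1, h3] at h
  have h4 := le_of_mul_le_mul_left h (by positivity)
  have h5 : (25 / 4 : ℝ) ^ 6 ≤ (25 / 4) ^ d := pow_le_pow_right₀ (by norm_num) hd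
  norm_num at h5 h2
  linarith

lemma num_three_frob (M : ℝ) (hM : 1 ≤ M) (d : ℕ) (hd : 12 ≤ d)
    (h : ((23 : ℕ) : ℝ) ^ ((1 + 0) * d) ≤ (2 ^ d * M ^ (23 * 23 ^ 0 + 23 ^ 0)) ^ 3) :
    2 ≤ M ^ 4 := by
  by_contra hcon
  push Not at hcon
  have hM0 : 0 < M := by linarith
  have h1 : (2 ^ d * M ^ (23 * 23 ^ 0 + 23 ^ 0)) ^ 3 = (8 : ℝ) ^ d * (M ^ 4) ^ 18 := by
    have : (8 : ℝ) = 2 ^ 3 := by norm_num
    rw [this]
    simp only [mul_pow, ← pow_mul]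
    congr 2; ring
  have h2 : (M ^ 4) ^ 18 < 2 ^ 18 := pow_lt_pow_left₀ hcon (by positivity) (by norm_num)
  have h3 : ((23 : ℕ) : ℝ) ^ ((1 + 0) * d) = 8 ^ d * (23 / 8) ^ d := by
    rw [← mul_pow, add_zero, one_mul]; norm_num
  rw [h1, h3] at h
  have h4 := le_of_mul_le_mul_left h (by positivity)
  have h5 : (23 / 8 : ℝ) ^ 12 ≤ (23 / 8) ^ d := pow_le_pow_right₀ (by norm_num) hd
  norm_num at h5 h2
  linarith

lemma num5 (E J : ℕ) (h : 4 * J ≤ 5 * E) :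
    (2 : ℝ) ^ (2 * 2 * 2 * E) * 2 ^ (2 * 5 * J) ≤ ((5 : ℕ) : ℝ) ^ (2 * 2 * (1 * J + E)) := by
  have h1 : ((32 / 25 : ℝ) ^ J) ^ 4 ≤ ((25 / 16) ^ E) ^ 4 := by
    calc ((32 / 25 : ℝ) ^ J) ^ 4 = (32 / 25 : ℝ) ^ (4 * J) := by rw [← pow_mul, mul_comm]
      _ ≤ (32 / 25 : ℝ) ^ (5 * E) := pow_le_pow_right₀ (by norm_num) h
      _ = ((32 / 25 : ℝ) ^ 5) ^ E := by rw [← pow_mul]
      _ ≤ ((25 / 16 : ℝ) ^ 4) ^ E := pow_le_pow_left₀ (by norm_num) (by norm_num) _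
      _ = _ := by rw [← pow_mul, ← pow_mul, mul_comm]
  have h2 : (32 / 25 : ℝ) ^ J ≤ (25 / 16) ^ E := le_of_pow_le_pow_left₀ (by norm_num) (by positivity) h1
  have h3 : (2 : ℝ) ^ (2 * 2 * 2 * E) * 2 ^ (2 * 5 * J) =
      (((32 / 25) ^ J) * (16 ^ E * 25 ^ J)) ^ 2 := by
    have e1 : (32 / 25 : ℝ) ^ J * 25 ^ J = 32 ^ J := by rw [← mul_pow]; norm_num
    have e2 : ((32 / 25 : ℝ) ^ J) * (16 ^ E * 25 ^ J) = 16 ^ E * 32 ^ J := by rw [← e1]; ring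
    rw [e2, show (16 : ℝ) = 2 ^ 4 by norm_num, show (32 : ℝ) = 2 ^ 5 by norm_num]
    simp only [mul_pow, ← pow_mul]
    congr 2 <;> ring
  have h4 : ((5 : ℕ) : ℝ) ^ (2 * 2 * (1 * J + E)) =
      (((25 / 16) ^ E) * (16 ^ E * 25 ^ J)) ^ 2 := by
    have e1 : (25 / 16 : ℝ) ^ E * 16 ^ E = 25 ^ E := by rw [← mul_pow]; norm_num
    have e2 : ((25 / 16 : ℝ) ^ E) * (16 ^ E * 25 ^ J) = 25 ^ E * 25 ^ J := by rw [← e1]; ring
    rw [e2, show (25 : ℝ) = 5 ^ 2 by norm_num]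
    simp only [← pow_mul, ← pow_add]
    push_cast
    congr 1
    ring
  rw [h3, h4]
  gcongr

lemma num23 (E J : ℕ) (h : 5 * J ≤ 3 * E) :
    (2 : ℝ) ^ (3 * 2 * 3 * E) * 2 ^ (3 * 23 * J) ≤ ((23 : ℕ) : ℝ) ^ (2 * 3 * (2 * J + E)) := by
  set Y : ℝ := 2 ^ 69 / 23 ^ 12 with hY
  set Z : ℝ := (23 / 8) ^ 6 with hZ
  have hY1 : 1 ≤ Y := by rw [hY]; norm_num
  have hYZ : Y ^ 3 ≤ Z ^ 5 := by
    rw [hY, hZ]
    norm_num
  have h1 : (Y ^ J) ^ 5 ≤ (Z ^ E) ^ 5 := by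
    calc (Y ^ J) ^ 5 = Y ^ (5 * J) := by rw [← pow_mul, mul_comm]
      _ ≤ Y ^ (3 * E) := pow_le_pow_right₀ hY1 h
      _ = (Y ^ 3) ^ E := by rw [← pow_mul]
      _ ≤ (Z ^ 5) ^ E := pow_le_pow_left₀ (by positivity) hYZ _
      _ = _ := pow_right_comm Z 5 E
  have h2 : Y ^ J ≤ Z ^ E := le_of_pow_le_pow_left₀ (by norm_num) (by positivity) h1
  have h3 : (2 : ℝ) ^ (3 * 2 * 3 * E) * 2 ^ (3 * 23 * J) =
      Y ^ J * ((8 ^ 6) ^ E * (23 ^ 12) ^ J) := by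
    have e1 : Y ^ J * (23 ^ 12) ^ J = (2 ^ 69) ^ J := by
      rw [← mul_pow, hY, div_mul_cancel₀]; norm_num
    have e2 : Y ^ J * ((8 ^ 6) ^ E * (23 ^ 12) ^ J) = (8 ^ 6) ^ E * (2 ^ 69) ^ J := by
      rw [← e1]; ring
    rw [e2, show (8 : ℝ) = 2 ^ 3 by norm_num]
    simp only [← pow_mul]
  have h4 : ((23 : ℕ) : ℝ) ^ (2 * 3 * (2 * J + E)) =
      Z ^ E * ((8 ^ 6) ^ E * (23 ^ 12) ^ J) := by
    have e1 : Z ^ E * (8 ^ 6) ^ E = (23 ^ 6) ^ E := by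
      rw [← mul_pow, hZ, ← mul_pow]; norm_num
    have e2 : Z ^ E * ((8 ^ 6) ^ E * (23 ^ 12) ^ J) = (23 ^ 6) ^ E * (23 ^ 12) ^ J := by
      rw [← e1]; ring
    rw [e2]
    simp only [← pow_mul, ← pow_add]
    push_cast
    congr 1
    ring
  rw [h3, h4]
  gcongr

lemma exists_n (p v E : ℕ) (hp : 2 ≤ p) (hv : 0 < v) : ∃ n : ℕ,
    (∀ m < n, (p - 1) * (v * p ^ m) ≤ E) ∧ E ≤ (p - 1) * (v * p ^ n) := by
  classical
  have hex : ∃ n : ℕ, E ≤ (p - 1) * (v * p ^ n) := by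
    refine ⟨E, ?_⟩
    have h1 : E < p ^ E := Nat.lt_pow_self (by omega)
    have h2 : 1 ≤ (p - 1) * v := Nat.mul_pos (by omega) hv
    calc E ≤ 1 * p ^ E := by omega
      _ ≤ ((p - 1) * v) * p ^ E := Nat.mul_le_mul_right _ h2
      _ = _ := by ring
  refine ⟨Nat.find hex, fun m hm => ?_, Nat.find_spec hex⟩
  have := Nat.find_min hex hm
  omega

end Pool.Agent.H25.AbDeg
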