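import Pool.Agent.H25.AbDeg.Key
import Pool.Agent.H25.AbDeg.Num

/-!
# Numbers of degree two and three over an abelian field
-/

open Polynomial N60ffa576 Module NumberField IntermediateField Ideal

open scoped Pointwise

namespace Pool.Agent.H25.AbDeg

open Pool.Agent.H21.Leh Pool.Agent.H25

variable {k F : Type*} [Field k] [NumberField k] [Field F] [NumberField F] [Algebra k F]
  [IsGalois ℚ F] [IsGalois ℚ k]

omit [IsGalois ℚ k] in
lemma exists_lift (σ : Gal(k/ℚ)) :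
    ∃ σ' : F ≃ₐ[ℚ] F, ∀ x : k, σ' (algebraMap k F x) = algebraMap k F (σ x) :=
  ⟨σ.liftNormal F, fun x => AlgEquiv.liftNormal_commutes σ F x⟩

omit [IsGalois ℚ F] in
lemma exists_inertia (hc : ∀ σ τ : Gal(k/ℚ), σ * τ = τ * σ) (p : ℕ) [Fact p.Prime]
    (h : ram k p ≠ 1) : ∃ σ : Gal(k/ℚ), σ ≠ 1 ∧ ∀ x : 𝓞 k, σ • x - x ∈ rad k (pQ p) ^ 1 := by
  obtain ⟨I, hIc, hI⟩ := inertia_rad (F := k) (pQ p) (pQ_ne_bot p) hc
  have hIne : I ≠ ⊥ := by
    intro h'
    rw [h'] at hIc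
    simp at hIc
    exact h hIc.symm
  obtain ⟨⟨σ, hσ⟩, hσ1⟩ := Subgroup.ne_bot_iff_exists_ne_one.1 hIne
  refine ⟨σ, fun h => hσ1 (Subtype.ext h), fun x => ?_⟩
  rw [pow_one]
  exact (hI σ).1 hσ x

omit [IsGalois ℚ F] in
lemma ram_dvd (hc : ∀ σ τ : Gal(k/ℚ), σ * τ = τ * σ) (p : ℕ) [Fact p.Prime] :
    ram k p ∣ finrank ℚ k := by
  obtain ⟨I, hIc, hI⟩ := inertia_rad (F := k) (pQ p) (pQ_ne_bot p) hc
  have h1 : Nat.card Gal(k/ℚ) = finrank ℚ k := IsGalois.card_aut_eq_finrank ℚ k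
  rw [← h1, ram, ← hIc]
  exact Subgroup.card_subgroup_dvd_card I

variable {α : 𝓞 F}

/-- The hypothesis that no power of `α` is fixed by an automorphism which is not trivial on `k`. -/
def Free (k : Type*) {F : Type*} [Field k] [NumberField k] [Field F] [NumberField F]
    [Algebra k F] (α : 𝓞 F) : Prop :=
  ∀ (σ : Gal(k/ℚ)) (ρ : F ≃ₐ[ℚ] F), σ ≠ 1 →
    (∀ x : k, ρ (algebraMap k F x) = algebraMap k F (σ x)) → ∀ m, 0 < m → α ^ m ≠ (ρ • α) ^ m

/-- Degree two over an abelian field. -/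
theorem case_two (hc : ∀ σ τ : Gal(k/ℚ), σ * τ = τ * σ) (D : Data k α 2)
    (hdeg : dg α = 2 * finrank ℚ k) (hd : 6 ≤ dg α) (hα0 : α ≠ 0) (hα : ∀ m, 0 < m → α ^ m ≠ 1)
    (hne : Free k α) : 2 ≤ MM α ^ 4 := by
  have hp : Fact (Nat.Prime 5) := ⟨by norm_num⟩
  by_cases hE : ram k 5 = 1
  · obtain ⟨φ, hφ⟩ := frob_rad (F := k) (pQ 5) (pQ_ne_bot 5) hc
    rw [absNorm_pQ] at hφ
    obtain ⟨φ', hφ'⟩ := exists_lift (F := F) φ
    exact num_two_frob _ (one_le_MM α) (dg α) hd (ineq_frob D 5 hE φ' φ hφ' hφ hα0 hα 1)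
  · obtain ⟨σ, hσ1, hσ⟩ := exists_inertia hc 5 hE
    obtain ⟨σ', hσ'⟩ := exists_lift (F := F) σ
    obtain ⟨n, hn, hn'⟩ := exists_n 5 1 (ram k 5) (by norm_num) (by norm_num)
    have h1 := ineq_inertia D 5 σ' σ hσ' 1 hσ (fun ρ hρ => hne σ ρ hσ1 hρ) n hn hn'
    have hpos : 0 < ram k 5 := ram_pos 5
    have hle : ram k 5 ≤ finrank ℚ k := Nat.le_of_dvd finrank_pos (ram_dvd hc 5)
    refine num_gen 5 2 _ (one_le_MM α) (dg α) (ram k 5) (5 ^ n) 1 2 hpos (by positivity)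
      (by norm_num) (by norm_num) (by norm_num) (by omega) ?_ h1
    refine num5 _ _ ?_
    rcases Nat.eq_zero_or_pos n with h0 | h0
    · subst h0
      omega
    · have h2 := hn (n - 1) (by omega)
      have h3 : 5 ^ n = 5 * 5 ^ (n - 1) := by rw [← pow_succ']; congr 1; omega
      rw [h3]
      omega

/-- Degree three over an abelian field. -/
theorem case_three (hc : ∀ σ τ : Gal(k/ℚ), σ * τ = τ * σ) (D : Data k α 3)
    (hdeg : dg α = 3 * finrank ℚ k) (hd : 12 ≤ dg α) (hα0 : α ≠ 0) (hα : ∀ m, 0 < m → α ^ m ≠ 1)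
    (hne : Free k α) : 2 ≤ MM α ^ 4 := by
  have hp : Fact (Nat.Prime 23) := ⟨by norm_num⟩
  have hpos : 0 < ram k 23 := ram_pos 23
  have hle : ram k 23 ≤ finrank ℚ k := Nat.le_of_dvd finrank_pos (ram_dvd hc 23)
  by_cases hE : ram k 23 = 1
  · obtain ⟨φ, hφ⟩ := frob_rad (F := k) (pQ 23) (pQ_ne_bot 23) hc
    rw [absNorm_pQ] at hφ
    obtain ⟨φ', hφ'⟩ := exists_lift (F := F) φ
    exact num_three_frob _ (one_le_MM α) (dg α) hd (ineq_frob D 23 hE φ' φ hφ' hφ hα0 hα 0)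
  by_cases hdvd : ram k 23 ∣ 22
  · obtain ⟨σ, hσ1, hσ⟩ := exists_inertia hc 23 hE
    obtain ⟨σ', hσ'⟩ := exists_lift (F := F) σ
    have hle22 := Nat.le_of_dvd (by norm_num) hdvd
    have h1 := ineq_inertia D 23 σ' σ hσ' 1 hσ (fun ρ hρ => hne σ ρ hσ1 hρ) 0 (by simp) (by omega)
    have hcases : ram k 23 = 2 ∨ ram k 23 = 11 ∨ ram k 23 = 22 := by
      generalize ram k 23 = e at *
      interval_cases e <;> simp_all <;> omega
    rcases hcases with h2 | h2 | h2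
    · refine num_gen 23 3 _ (one_le_MM α) (dg α) (ram k 23) (23 ^ 0) 1 6 hpos (by positivity)
        (by norm_num) (by norm_num) (by norm_num) (by omega) ?_ h1
      rw [h2]
      norm_num
    · refine num_gen 23 3 _ (one_le_MM α) (dg α) (ram k 23) (23 ^ 0) 1 3 hpos (by positivity)
        (by norm_num) (by norm_num) (by norm_num) (by omega) ?_ h1
      rw [h2]
      norm_num
    · refine num_gen 23 3 _ (one_le_MM α) (dg α) (ram k 23) (23 ^ 0) 1 3 hpos (by positivity)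
        (by norm_num) (by norm_num) (by norm_num) (by omega) ?_ h1
      rw [h2, show 3 * 2 * 3 * 22 = 3 * 132 by norm_num, pow_mul]
      norm_num
  · rcases tame_or (F := k) (pQ 23) (pQ_ne_bot 23) hc with h | ⟨σ, hσ1, hσ⟩
    · rw [absNorm_pQ] at h
      exact absurd h hdvd
    obtain ⟨σ', hσ'⟩ := exists_lift (F := F) σ
    obtain ⟨n, hn, hn'⟩ := exists_n 23 2 (ram k 23) (by norm_num) (by norm_num)
    have h1 := ineq_inertia D 23 σ' σ hσ' 2 hσ (fun ρ hρ => hne σ ρ hσ1 hρ) n hn hn'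
    refine num_gen 23 3 _ (one_le_MM α) (dg α) (ram k 23) (23 ^ n) 2 3 hpos (by positivity)
      (by norm_num) (by norm_num) (by norm_num) (by omega) ?_ h1
    refine num23 _ _ ?_
    rcases Nat.eq_zero_or_pos n with h0 | h0
    · subst h0
      have : ram k 23 ≠ 2 := by
        intro h
        rw [h] at hdvd
        omega
      omega
    · have h2 := hn (n - 1) (by omega)
      have h3 : 23 ^ n = 23 * 23 ^ (n - 1) := by rw [← pow_succ']; congr 1; omega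
      rw [h3]
      omega

end Pool.Agent.H25.AbDeg
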