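import Mathlib

/-!
# Elementary symmetric functions of `p`-th powers, modulo powers of an ideal containing `p`
-/

open MvPolynomial

namespace Pool.Agent.H25.AbDeg

/-- The elementary symmetric functions of the `p`-th powers, in terms of the elementary symmetric
functions. -/
lemma exists_W (r p : ℕ) [hp : Fact p.Prime] (i : ℕ) : ∃ W : MvPolynomial (Fin r) ℤ,
    expand p (esymm (Fin r) ℤ i) =
      (esymm (Fin r) ℤ i) ^ p + C (p : ℤ) * aeval (fun j : Fin r => esymm (Fin r) ℤ (j + 1)) W := by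
  have h1 : C ((p : ℕ) : ℤ) ∣ expand p (esymm (Fin r) ℤ i) - (esymm (Fin r) ℤ i) ^ p := by
    rw [C_dvd_iff_zmod, map_sub, map_expand, map_pow, expand_zmod, sub_self]
  obtain ⟨V, hV⟩ := h1
  have hp0 : (C ((p : ℕ) : ℤ) : MvPolynomial (Fin r) ℤ) ≠ 0 := by
    rw [Ne, C_eq_zero]
    exact_mod_cast hp.out.ne_zero
  have hsym : V.IsSymmetric := by
    intro e
    have h2 := congrArg (rename e) hV
    rw [map_sub, rename_expand, map_pow, (esymm_isSymmetric (Fin r) ℤ i) e, map_mul, rename_C,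
      hV] at h2
    exact (mul_left_cancel₀ hp0 h2).symm
  obtain ⟨W, hW⟩ := (esymmAlgEquiv (Fin r) ℤ (Fintype.card_fin r)).surjective ⟨V, hsym⟩
  refine ⟨W, ?_⟩
  have h3 : aeval (fun j : Fin r => esymm (Fin r) ℤ (j + 1)) W = V := by
    have h4 := congrArg Subtype.val hW
    have h5 : ((esymmAlgHom (Fin r) ℤ r W : symmetricSubalgebra (Fin r) ℤ) :
        MvPolynomial (Fin r) ℤ) = V := h4
    rw [← h5, esymmAlgHom_apply]
  rw [h3, ← hV]
  ring

variable {S : Type*} [CommRing S] {r : ℕ}

/-- The elementary symmetric function of a family. -/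
noncomputable def es (b : Fin r → S) (i : ℕ) : S := aeval b (esymm (Fin r) ℤ i)

lemma es_pow (p : ℕ) [hp : Fact p.Prime] (i : ℕ) : ∃ W : MvPolynomial (Fin r) ℤ,
    ∀ b : Fin r → S, es (fun j => b j ^ p) i =
      es b i ^ p + (p : S) * aeval (fun j : Fin r => es b (j + 1)) W := by
  obtain ⟨W, hW⟩ := exists_W r p i
  refine ⟨W, fun b => ?_⟩
  have h1 := congrArg (aeval b) hW
  rw [map_add, map_mul, map_pow, aeval_C] at h1
  have h2 : aeval b (expand p (esymm (Fin r) ℤ i)) = es (fun j => b j ^ p) i := by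
    unfold es expand
    rw [aeval_bind₁]
    simp
  have h3 : aeval b (aeval (fun j : Fin r => esymm (Fin r) ℤ (j + 1)) W) =
      aeval (fun j : Fin r => es b (j + 1)) W :=
    comp_aeval_apply (fun j : Fin r => esymm (Fin r) ℤ (j + 1)) (aeval b) W
  rw [← h2, h1, h3]
  simp [es]

lemma es_coeff (b : Fin r → S) (i : ℕ) (hi : i ≤ r) :
    es b i = (-1) ^ i * (∏ j, (Polynomial.X - Polynomial.C (b j))).coeff (r - i) := by
  have h1 : (∏ j, (Polynomial.X - Polynomial.C (b j))) =
      ((Finset.univ.val.map b).map fun t => Polynomial.X - Polynomial.C t).prod := by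
    rw [Multiset.map_map, Finset.prod_eq_multiset_prod]
    rfl
  have hc : Multiset.card (Finset.univ.val.map b) = r := by
    rw [Multiset.card_map, Finset.card_val, Finset.card_univ, Fintype.card_fin]
  have h2 := Multiset.prod_X_sub_C_coeff (Finset.univ.val.map b) (k := r - i) (by omega)
  rw [h1, h2, hc, ← mul_assoc, Nat.sub_sub_self hi, ← mul_pow]
  simp only [mul_neg, mul_one, neg_neg, one_pow, one_mul]
  exact aeval_esymm_eq_multiset_esymm (Fin r) ℤ i b

lemma es_zero_of_lt (b : Fin r → S) (i : ℕ) (hi : r < i) : es b i = 0 := by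
  unfold es esymm
  rw [Finset.powersetCard_eq_empty.2 (by simpa using hi)]
  simp

lemma prod_sub_es (b : Fin r → S) (t : S) :
    ∏ j, (t - b j) = ∑ i ∈ Finset.range (r + 1), (-1) ^ i * (es b i * t ^ (r - i)) := by
  have h1 : (∏ j, (Polynomial.X - Polynomial.C (b j))) =
      ((Finset.univ.val.map b).map fun t => Polynomial.X - Polynomial.C t).prod := by
    rw [Multiset.map_map, Finset.prod_eq_multiset_prod]
    rfl
  have hc : Multiset.card (Finset.univ.val.map b) = r := by
    rw [Multiset.card_map, Finset.card_val, Finset.card_univ, Fintype.card_fin]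
  have h2 := Multiset.prod_X_sub_X_eq_sum_esymm (Finset.univ.val.map b)
  rw [← h1, hc] at h2
  have h3 := congrArg (Polynomial.eval t) h2
  rw [Polynomial.eval_prod, Polynomial.eval_finset_sum] at h3
  simp only [Polynomial.eval_sub, Polynomial.eval_X, Polynomial.eval_C, Polynomial.eval_mul,
    Polynomial.eval_pow, Polynomial.eval_neg, Polynomial.eval_one] at h3
  rw [h3]
  refine Finset.sum_congr rfl fun i _ => ?_
  rw [← aeval_esymm_eq_multiset_esymm (Fin r) ℤ i b]
  rfl

section ideal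

variable {R : Ideal S}

lemma pow_sub_pow_mem (p : ℕ) (hp : p.Prime) {E v : ℕ} (hE : (p : S) ∈ R ^ E) {a b : S}
    (h : a - b ∈ R ^ v) : a ^ p - b ^ p ∈ R ^ (min (p * v) (v + E)) := by
  have h1 : a ^ p - b ^ p = (a - b) ^ p + (p : S) * (a - b) * b *
      ∑ k ∈ Finset.Ioo 0 p, (a - b) ^ (k - 1) * b ^ (p - k - 1) * ↑(p.choose k / p) := by
    have := add_pow_prime_eq hp (a - b) b
    rw [sub_add_cancel] at this
    rw [this]; ring
  rw [h1]
  refine Ideal.add_mem _ ?_ ?_
  · refine Ideal.pow_le_pow_right (min_le_left _ _) ?_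
    rw [mul_comm, pow_mul]
    exact Ideal.pow_mem_pow h p
  · refine Ideal.pow_le_pow_right (min_le_right _ _) ?_
    refine Ideal.mul_mem_right _ _ (Ideal.mul_mem_right _ _ ?_)
    rw [add_comm, pow_add]
    exact Ideal.mul_mem_mul hE h

/-- One step. -/
lemma es_step (p : ℕ) [hp : Fact p.Prime] {E v : ℕ} (hE : (p : S) ∈ R ^ E) {x y : Fin r → S}
    (h : ∀ i, es x i - es y i ∈ R ^ v) (i : ℕ) :
    es (fun j => x j ^ p) i - es (fun j => y j ^ p) i ∈ R ^ (min (p * v) (v + E)) := by
  obtain ⟨W, hW⟩ := es_pow (S := S) (r := r) p i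
  rw [hW x, hW y]
  have h1 : aeval (fun j : Fin r => es x (j + 1)) W - aeval (fun j : Fin r => es y (j + 1)) W ∈
      R ^ v := by
    rw [← Ideal.Quotient.eq]
    have h2 : ∀ z : Fin r → S, Ideal.Quotient.mk (R ^ v) (aeval (fun j : Fin r => es z (j + 1)) W) =
        aeval (fun j : Fin r => Ideal.Quotient.mk (R ^ v) (es z (j + 1))) W := fun z =>
      comp_aeval_apply (fun j : Fin r => es z (j + 1))
        ((Ideal.Quotient.mk (R ^ v)).toIntAlgHom) W
    rw [h2, h2]
    congr 2
    funext j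
    exact Ideal.Quotient.eq.2 (h _)
  have h3 : es x i ^ p + (p : S) * aeval (fun j : Fin r => es x (j + 1)) W -
      (es y i ^ p + (p : S) * aeval (fun j : Fin r => es y (j + 1)) W) =
      (es x i ^ p - es y i ^ p) + (p : S) * (aeval (fun j : Fin r => es x (j + 1)) W -
        aeval (fun j : Fin r => es y (j + 1)) W) := by ring
  rw [h3]
  refine Ideal.add_mem _ (pow_sub_pow_mem p hp.out hE (h i)) ?_
  refine Ideal.pow_le_pow_right (min_le_right _ _) ?_
  rw [add_comm, pow_add]
  exact Ideal.mul_mem_mul hE h1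

/-- Many steps below the ramification index. -/
lemma es_low (p : ℕ) [hp : Fact p.Prime] {E v : ℕ} (hE : (p : S) ∈ R ^ E) {x y : Fin r → S}
    (h : ∀ i, es x i - es y i ∈ R ^ v) (n : ℕ) (hn : ∀ m < n, (p - 1) * (v * p ^ m) ≤ E) :
    ∀ i, es (fun j => x j ^ (p ^ n)) i - es (fun j => y j ^ (p ^ n)) i ∈ R ^ (v * p ^ n) := by
  induction n with
  | zero => simpa using h
  | succ n ih =>
    intro i
    have h1 := es_step p hE (ih fun m hm => hn m (by omega)) i
    have h2 := hn n (by omega)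
    have h3 : v * p ^ (n + 1) ≤ min (p * (v * p ^ n)) (v * p ^ n + E) := by
      refine le_min (le_of_eq (by rw [pow_succ]; ring)) ?_
      have h4 : p = (p - 1) + 1 := by
        have := hp.out.one_lt
        omega
      calc v * p ^ (n + 1) = p * (v * p ^ n) := by rw [pow_succ]; ring
        _ = ((p - 1) + 1) * (v * p ^ n) := by rw [← h4]
        _ = (p - 1) * (v * p ^ n) + v * p ^ n := by ring
        _ ≤ _ := by omega
    have h5 := Ideal.pow_le_pow_right h3 h1
    simp only [← pow_mul, ← pow_succ] at h5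
    exact h5

/-- One step above the ramification index. -/
lemma es_high (p : ℕ) [hp : Fact p.Prime] {E v : ℕ} (hE : (p : S) ∈ R ^ E) {x y : Fin r → S}
    (h : ∀ i, es x i - es y i ∈ R ^ v) (hv : E ≤ (p - 1) * v) (i : ℕ) :
    es (fun j => x j ^ p) i - es (fun j => y j ^ p) i ∈ R ^ (v + E) := by
  have h1 := es_step p hE h i
  rw [min_eq_right] at h1
  · exact h1
  · have h4 : p = (p - 1) + 1 := by
      have := hp.out.one_lt
      omega
    rw [h4]
    nlinarith

/-- The product. -/
lemma prod_mem {v : ℕ} {x y : Fin r → S} (h : ∀ i, es x i - es y i ∈ R ^ v) (j0 : Fin r) :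
    ∏ j, (y j0 - x j) ∈ R ^ v := by
  have h0 : ∏ j, (y j0 - y j) = 0 := Finset.prod_eq_zero (Finset.mem_univ j0) (sub_self _)
  have h1 : ∏ j, (y j0 - x j) = ∏ j, (y j0 - x j) - ∏ j, (y j0 - y j) := by rw [h0, sub_zero]
  rw [h1, prod_sub_es, prod_sub_es, ← Finset.sum_sub_distrib]
  refine Ideal.sum_mem _ fun i _ => ?_
  have h2 : (-1) ^ i * (es x i * y j0 ^ (r - i)) - (-1) ^ i * (es y i * y j0 ^ (r - i)) =
      (es x i - es y i) * ((-1) ^ i * y j0 ^ (r - i)) := by ring
  rw [h2]
  exact Ideal.mul_mem_right _ _ (h i)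

end ideal

end Pool.Agent.H25.AbDeg
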