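import Pool.Agent.H21.Leh.Primes

/-!
# Abelian extensions: the ramification index and elements of the inertia group which are trivial
modulo the square of the product of the primes
-/

open Polynomial Module NumberField IntermediateField Ideal

open scoped Pointwise

namespace Pool.Agent.H25.AbDeg

open Pool.Agent.H21.Leh

variable {k F : Type*} [Field k] [NumberField k] [Field F] [NumberField F] [Algebra k F]

lemma pow_sub_pow_sq {S : Type*} [CommRing S] (P : Ideal S) (q : ℕ) (hq : (q : S) ∈ P) {a b : S}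
    (h : a - b ∈ P) : a ^ q - b ^ q ∈ P ^ 2 := by
  have h1 : a ^ q - b ^ q = (a - b) * ∑ i ∈ Finset.range q, a ^ i * b ^ (q - 1 - i) :=
    ((Commute.all a b).mul_geom_sum₂ q).symm
  rw [h1, sq]
  refine Ideal.mul_mem_mul h ?_
  have h2 : ∀ i, a ^ i - b ^ i ∈ P := fun i => P.mem_of_dvd (sub_dvd_pow_sub_pow a b i) h
  have h3 : ∑ i ∈ Finset.range q, a ^ i * b ^ (q - 1 - i) =
      ∑ i ∈ Finset.range q, (a ^ i - b ^ i) * b ^ (q - 1 - i) + (q : S) * b ^ (q - 1) := by
    have h4 : (q : S) * b ^ (q - 1) = ∑ i ∈ Finset.range q, b ^ i * b ^ (q - 1 - i) := by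
      rw [Finset.sum_congr rfl (g := fun _ => b ^ (q - 1)), Finset.sum_const, Finset.card_range,
        nsmul_eq_mul]
      intro i hi
      rw [Finset.mem_range] at hi
      rw [← pow_add]
      congr 1
      omega
    rw [h4, ← Finset.sum_add_distrib]
    refine Finset.sum_congr rfl fun i _ => ?_
    ring
  rw [h3]
  exact P.add_mem (P.sum_mem fun i _ => P.mul_mem_right _ (h2 i)) (P.mul_mem_right _ hq)

section
variable (p : Ideal (𝓞 k)) [p.IsMaximal] (hp : p ≠ ⊥)

include hp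

omit [NumberField k] in
lemma mem_rad_sq {x : 𝓞 F} (h : ∀ P ∈ p.primesOver (𝓞 F), x ∈ P ^ 2) : x ∈ rad F p ^ 2 := by
  have h1 := IsDedekindDomain.inf_pow_eq_prod_of_prime (p.primesOver (𝓞 F)).toFinset
    (fun P => P) (fun _ => 2) (by
      intro P hP
      rw [Set.mem_toFinset] at hP
      exact Ideal.prime_of_isPrime (ne_bot_of_mem_primesOver hp hP) hP.1) (by
      intro P _ Q _ h
      exact h)
  unfold rad
  rw [← Finset.prod_pow, ← h1, Submodule.mem_finsetInf]
  intro P hP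
  exact h P (by simpa using hP)

variable [IsGalois k F]

/-- Either the ramification index divides `q - 1`, or there is a non-trivial element of the Galois
group which is trivial modulo the square of the product of the primes. -/
theorem tame_or (hc : ∀ σ τ : Gal(F/k), σ * τ = τ * σ) :
    p.ramificationIdxIn (𝓞 F) ∣ absNorm p - 1 ∨
      ∃ σ : Gal(F/k), σ ≠ 1 ∧ ∀ x : 𝓞 F, σ • x - x ∈ rad F p ^ 2 := by
  obtain ⟨I, hIc, hI⟩ := inertia_rad (F := F) p hp hc
  obtain ⟨φ, hφ⟩ := frob_rad (F := F) p hp hc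
  obtain ⟨P, hP⟩ := (inferInstance : Nonempty (primesOver p (𝓞 F)))
  have hP1 : P.IsPrime := hP.1
  have hP2 : P.LiesOver p := hP.2
  have hP0 : P ≠ ⊥ := ne_bot_of_mem_primesOver hp hP
  have hPm : P.IsMaximal := hP1.isMaximal hP0
  set q := absNorm p with hq
  have hqP : (q : 𝓞 F) ∈ P := by
    have h1 : (q : 𝓞 k) ∈ p := Ideal.absNorm_mem p
    have h2 := (Ideal.mem_of_liesOver P p (q : 𝓞 k)).1 h1
    simpa using h2
  have hIP : ∀ σ ∈ I, ∀ x : 𝓞 F, σ • x - x ∈ P := fun σ hσ x =>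
    (mem_rad p hp).1 ((hI σ).1 hσ x) P hP
  have hIP' : ∀ σ ∈ I, ∀ x ∈ P, σ • x ∈ P := fun σ hσ x hx => by
    have := P.add_mem (hIP σ hσ x) hx
    rwa [sub_add_cancel] at this
  have hfix : ∀ τ : Gal(F/k), (∀ x ∈ P, τ • x ∈ P) → τ • P = P := by
    intro τ hτ
    have h1 : τ • P ≤ P := by
      intro x hx
      rw [Ideal.mem_pointwise_smul_iff_inv_smul_mem] at hx
      have := hτ _ hx
      rwa [smul_inv_smul] at this
    have h2 : (τ • P).IsMaximal := by
      have h3 : (τ • P).IsPrime := inferInstance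
      refine h3.isMaximal ?_
      intro h4
      apply hP0
      have h5 : τ⁻¹ • (τ • P) = τ⁻¹ • (⊥ : Ideal (𝓞 F)) := by rw [h4]
      rw [inv_smul_smul] at h5
      rw [h5, Ideal.pointwise_smul_def, Ideal.map_bot]
    exact h2.eq_of_le hP1.ne_top h1
  have hsq : ∀ τ : Gal(F/k), τ • P = P → ∀ x, x ∈ P ^ 2 ↔ τ • x ∈ P ^ 2 := by
    intro τ hτ x
    have h1 : τ • (P ^ 2) = P ^ 2 := by
      conv_rhs => rw [← hτ]
      rw [Ideal.pointwise_smul_def, Ideal.pointwise_smul_def, Ideal.map_pow]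
    conv_rhs => rw [← h1]
    rw [Ideal.mem_pointwise_smul_iff_inv_smul_mem, inv_smul_smul]
  have hIfix : ∀ σ ∈ I, σ • P = P := fun σ hσ => hfix σ (hIP' σ hσ)
  have hφP : ∀ x : 𝓞 F, φ • x - x ^ q ∈ P := fun x => (mem_rad p hp).1 (hφ x) P hP
  have hq0 : q ≠ 0 := by
    intro h
    rw [hq] at h
    exact hp (Ideal.absNorm_eq_zero_iff.1 h)
  have hφP' : ∀ x ∈ P, φ • x ∈ P := fun x hx => by
    have := P.add_mem (hφP x) (Ideal.pow_mem_of_mem P hx q (by omega))
    rwa [sub_add_cancel] at this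
  have hφfix := hfix φ hφP'
  obtain ⟨π, hπ1, hπ2⟩ := Ideal.exists_mem_pow_notMem_pow_succ P hP0 hP1.ne_top 1
  rw [pow_one] at hπ1
  have hpow1 : ∀ x, x ∈ P ^ 1 ↔ x ∈ P := fun x => by rw [pow_one]
  have hdec : ∀ c ∈ P, ∃ d, π * d - c ∈ P ^ 2 := by
    intro c hc
    obtain ⟨d, e, he, hde⟩ := Ideal.exists_mul_add_mem_pow_succ hP0 π c ((hpow1 _).2 hπ1) hπ2
      ((hpow1 _).2 hc)
    refine ⟨d, ?_⟩
    rw [← hde, sub_add_cancel_left]
    exact (P ^ 2).neg_mem he
  have huniq : ∀ d, π * d ∈ P ^ 2 → d ∈ P := fun d hd => Ideal.mem_prime_of_mul_mem_pow hP0 hπ2 hd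
  have hmul2 : ∀ {a b : 𝓞 F}, a ∈ P → b ∈ P → a * b ∈ P ^ 2 := fun ha hb => by
    rw [sq]; exact Ideal.mul_mem_mul ha hb
  choose u hu using fun σ : I => hdec ((σ : Gal(F/k)) • π) (hIP' σ σ.2 π hπ1)
  -- the character
  let f : I →* 𝓞 F ⧸ P :=
    { toFun := fun σ => Ideal.Quotient.mk P (u σ)
      map_one' := by
        rw [← (Ideal.Quotient.mk P).map_one, Ideal.Quotient.eq]
        refine huniq _ ?_
        have := hu 1
        rwa [OneMemClass.coe_one, one_smul, ← mul_sub_one] at this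
      map_mul' := fun σ τ => by
        rw [← map_mul, Ideal.Quotient.eq]
        refine huniq _ ?_
        have h1 := hu (σ * τ)
        have h2 := hu σ
        have h3 := (hsq _ (hIfix _ σ.2) _).1 (hu τ)
        rw [smul_sub, smul_mul', smul_smul] at h3
        have h4 := hIP σ σ.2 (u τ)
        have h5 : π * (u (σ * τ) - u σ * u τ) =
            (π * u (σ * τ) - ((σ * τ : I) : Gal(F/k)) • π) -
            ((((σ : Gal(F/k)) • π) * ((σ : Gal(F/k)) • u τ)) -
              ((σ : Gal(F/k)) * (τ : Gal(F/k))) • π)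
            + (-((π * u σ - (σ : Gal(F/k)) • π) * ((σ : Gal(F/k)) • u τ)))
            + π * (u σ * ((σ : Gal(F/k)) • u τ - u τ)) := by
          rw [Subgroup.coe_mul]; ring
        rw [h5]
        refine (P ^ 2).add_mem ((P ^ 2).add_mem ((P ^ 2).sub_mem h1 h3) ?_) ?_
        · exact (P ^ 2).neg_mem ((P ^ 2).mul_mem_right _ h2)
        · exact hmul2 hπ1 (P.mul_mem_left _ h4) }
  have hf : ∀ σ, f σ = Ideal.Quotient.mk P (u σ) := fun _ => rfl
  by_cases hinj : Function.Injective f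
  · left
    have hcyc : IsCyclic I := isCyclic_of_injective_ringHom f hinj
    obtain ⟨g, hg⟩ := IsCyclic.exists_ofOrder_eq_natCard (α := I)
    rw [← hIc, ← hg]
    refine orderOf_dvd_of_pow_eq_one (hinj ?_)
    rw [map_pow, map_one]
    -- the Frobenius element
    have h1 : f g ^ q = f g := by
      rw [hf, ← map_pow, Ideal.Quotient.eq]
      obtain ⟨w, hw⟩ := hdec (φ • π) (hφP' π hπ1)
      have h2 := hu g
      have h3 := (hsq _ hφfix _).1 h2
      have h4 := (hsq _ (hIfix _ g.2) _).1 hw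
      rw [smul_sub, smul_mul', smul_smul] at h3 h4
      rw [hc φ g] at h3
      have h6 : φ • u g - u g ^ q ∈ P := hφP (u g)
      have h7 : (g : Gal(F/k)) • w - w ∈ P := hIP g g.2 w
      have hwP : w ∉ P := by
        intro hw'
        have h8 : φ • π ∈ P ^ 2 := by
          have := (P ^ 2).sub_mem (hmul2 hπ1 hw') hw
          rwa [sub_sub_cancel] at this
        exact hπ2 ((hsq _ hφfix _).2 h8)
      have h9 : π * (w * (u g ^ q - u g)) ∈ P ^ 2 := by
        have h10 : π * (w * (u g ^ q - u g)) =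
            ((φ • π) * (φ • u g) - ((g : Gal(F/k)) * φ) • π) -
            (((g : Gal(F/k)) • π) * ((g : Gal(F/k)) • w) - ((g : Gal(F/k)) * φ) • π) +
            (π * w - φ • π) * (u g ^ q) +
            (φ • π) * (-(φ • u g - u g ^ q)) +
            (-((π * u g - (g : Gal(F/k)) • π) * ((g : Gal(F/k)) • w))) +
            π * (u g * ((g : Gal(F/k)) • w - w)) := by ring
        rw [h10]
        refine (P ^ 2).add_mem ((P ^ 2).add_mem ((P ^ 2).add_mem ((P ^ 2).add_mem
          ((P ^ 2).sub_mem h3 h4) ?_) ?_) ?_) ?_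
        · exact (P ^ 2).mul_mem_right _ hw
        · exact hmul2 (hφP' π hπ1) (P.neg_mem h6)
        · exact (P ^ 2).neg_mem ((P ^ 2).mul_mem_right _ h2)
        · exact hmul2 hπ1 (P.mul_mem_left _ h7)
      exact (hP1.mem_or_mem (huniq _ h9)).resolve_left hwP
    have h2 : IsUnit (f g) := (Group.isUnit g).map f
    have h3 : f g * f g ^ (q - 1) = f g * 1 := by
      rw [← pow_succ', Nat.sub_add_cancel (by omega), mul_one, h1]
    exact h2.mul_left_cancel h3
  · right
    rw [injective_iff_map_eq_one] at hinj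
    push Not at hinj
    obtain ⟨σ, hσ1, hσ2⟩ := hinj
    refine ⟨σ, fun h => hσ2 (Subtype.ext h), ?_⟩
    have h1 : u σ - 1 ∈ P := by
      rw [← Ideal.Quotient.eq, ← hf, hσ1, map_one]
    have h2 : (σ : Gal(F/k)) • π - π ∈ P ^ 2 := by
      have h3 : (σ : Gal(F/k)) • π - π = π * (u σ - 1) - (π * u σ - (σ : Gal(F/k)) • π) := by ring
      rw [h3]
      exact (P ^ 2).sub_mem (hmul2 hπ1 h1) (hu σ)
    have h3 : ∀ x ∈ P, (σ : Gal(F/k)) • x - x ∈ P ^ 2 := by
      intro x hx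
      obtain ⟨d, hd⟩ := hdec x hx
      have h4 := (hsq _ (hIfix _ σ.2) _).1 hd
      rw [smul_sub, smul_mul'] at h4
      have h5 : (σ : Gal(F/k)) • x - x = (π * d - x) -
          (((σ : Gal(F/k)) • π) * ((σ : Gal(F/k)) • d) - (σ : Gal(F/k)) • x) +
          ((σ : Gal(F/k)) • π - π) * ((σ : Gal(F/k)) • d) + π * ((σ : Gal(F/k)) • d - d) := by ring
      rw [h5]
      exact (P ^ 2).add_mem ((P ^ 2).add_mem ((P ^ 2).sub_mem hd h4)
        ((P ^ 2).mul_mem_right _ h2)) (hmul2 hπ1 (hIP σ σ.2 d))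
    have h4 : ∀ x, (σ : Gal(F/k)) • x - x ∈ P ^ 2 := by
      intro x
      have h5 := hφP (φ⁻¹ • x)
      rw [smul_inv_smul] at h5
      have h6 := h3 _ h5
      have h7 := pow_sub_pow_sq P q hqP (hIP σ σ.2 (φ⁻¹ • x))
      rw [smul_sub, smul_pow'] at h6
      have h8 := (P ^ 2).add_mem h6 h7
      have h9 : (σ : Gal(F/k)) • x - x = (σ : Gal(F/k)) • x - ((σ : Gal(F/k)) • φ⁻¹ • x) ^ q -
          (x - (φ⁻¹ • x) ^ q) + (((σ : Gal(F/k)) • φ⁻¹ • x) ^ q - (φ⁻¹ • x) ^ q) := by ring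
      rw [h9]
      exact h8
    intro x
    refine mem_rad_sq p hp fun Q hQ => ?_
    have := hQ.1
    have := hQ.2
    obtain ⟨τ, rfl⟩ := exists_smul_eq_of_isGaloisGroup p P Q Gal(F/k)
    have h5 := h4 (τ⁻¹ • x)
    have h6 : (τ • P) ^ 2 = τ • (P ^ 2) := by
      rw [Ideal.pointwise_smul_def, Ideal.pointwise_smul_def, Ideal.map_pow]
    rw [h6, Ideal.mem_pointwise_smul_iff_inv_smul_mem, smul_sub, smul_smul, hc, ← smul_smul]
    exact h5

end

end Pool.Agent.H25.AbDeg
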