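import Pool.Agent.H25.AbDeg.Esymm
import Pool.Agent.H25.AbDeg.Tame
import Pool.Agent.H21.Leh.Swap

/-!
# The key inequalities for a number which is of small degree over an abelian field
-/

open Polynomial N60ffa576 Module NumberField IntermediateField Ideal

open scoped Pointwise

namespace Pool.Agent.H25.AbDeg

open Pool.Agent.H21.Leh Pool.Agent.H25

section bound

variable {F : Type*} [Field F] [NumberField F]

/-- The upper bound for the norm of a product of differences. -/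
lemma norm_prod_le {r : ℕ} (A : F) (B : Fin r → F) (HA HB : ℝ) (hA : hgt A ≤ HA)
    (hB : ∀ j, hgt (B j) ≤ HB) :
    |((Algebra.norm ℚ (∏ j, (A - B j)) : ℚ) : ℝ)| ≤ (2 ^ finrank ℚ F * (HA * HB)) ^ r := by
  rw [map_prod, Rat.cast_prod, Finset.abs_prod]
  calc ∏ j, |((Algebra.norm ℚ (A - B j) : ℚ) : ℝ)| ≤ ∏ j : Fin r, (2 ^ finrank ℚ F * (HA * HB)) := by
        refine Finset.prod_le_prod (fun _ _ => abs_nonneg _) fun j _ => ?_
        refine (abs_norm_sub_le A (B j)).trans ?_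
        have h1 := hB j
        have h2 := (hgt_pos (B j)).le
        have h3 := (hgt_pos A).le
        have h4 : 0 ≤ HA := h3.trans hA
        gcongr
    _ = _ := by rw [Finset.prod_const, Finset.card_univ, Fintype.card_fin]

/-- From a congruence to the inequality. -/
lemma key_ineq' (p : ℕ) (R : Ideal (𝓞 F)) (E : ℕ) (hN : (Ideal.absNorm R) ^ E = p ^ finrank ℚ F)
    (α : 𝓞 F) {r : ℕ} (A : 𝓞 F) (B : Fin r → 𝓞 F) (a b v : ℕ) (hA : hgt (A : F) = hgt (α : F) ^ a)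
    (hB : ∀ j, hgt (B j : F) = hgt (α : F) ^ b) (hmem : ∏ j, (A - B j) ∈ R ^ v)
    (hne : ∀ j, A ≠ B j) :
    (p : ℝ) ^ (v * dg α) ≤ ((2 ^ dg α * MM α ^ (a + b)) ^ r) ^ E := by
  have h0 : ∏ j, (A - B j) ≠ 0 := Finset.prod_ne_zero_iff.2 fun j _ => sub_ne_zero.2 (hne j)
  have h1 := absNorm_pow_le R v _ h0 hmem
  have h2 := norm_prod_le (A : F) (fun j => (B j : F)) (hgt (α : F) ^ a) (hgt (α : F) ^ b)
    hA.le (fun j => (hB j).le)
  have h3 : ((∏ j, (A - B j) : 𝓞 F) : F) = ∏ j, ((A : F) - (B j : F)) := by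
    refine (map_prod (algebraMap (𝓞 F) F) _ _).trans ?_
    simp
  rw [h3] at h1
  have h4 := h1.trans h2
  have h5 : (p : ℝ) ^ (v * finrank ℚ F) ≤
      ((2 ^ finrank ℚ F * (hgt (α : F) ^ a * hgt (α : F) ^ b)) ^ r) ^ E := by
    calc (p : ℝ) ^ (v * finrank ℚ F) = ((Ideal.absNorm R : ℝ) ^ v) ^ E := by
          rw [mul_comm v, pow_mul, ← pow_mul _ v E, mul_comm v E, pow_mul _ E v]
          congr 1
          exact_mod_cast hN.symm
      _ ≤ _ := pow_le_pow_left₀ (by positivity) h4 _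
  have hM : 0 ≤ MM α := zero_le_one.trans (one_le_MM α)
  have hr : 0 < finrank ℚ⟮(α : F)⟯ F := finrank_pos
  refine le_of_pow_le_pow_left₀ hr.ne' (by positivity) ?_
  rw [← pow_add, hgt_MM, ← dg_mul α] at h5
  calc ((p : ℝ) ^ (v * dg α)) ^ finrank ℚ⟮(α : F)⟯ F
      = (p : ℝ) ^ (v * (dg α * finrank ℚ⟮(α : F)⟯ F)) := by rw [← pow_mul, mul_assoc]
    _ ≤ _ := h5
    _ = _ := by
        simp only [mul_pow, ← pow_mul]
        congr 2 <;> ring

end bound

section data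

variable {k F : Type*} [Field k] [NumberField k] [Field F] [NumberField F] [Algebra k F]

/-- The ideal `(p)` of the integers of `ℚ`. -/
noncomputable def pQ (p : ℕ) : Ideal (𝓞 ℚ) := span {(p : 𝓞 ℚ)}

lemma absNorm_pQ (p : ℕ) : absNorm (pQ p) = p := by
  unfold pQ
  rw [Ideal.absNorm_span_singleton]
  have h := Algebra.norm_algebraMap (S := 𝓞 ℚ) (p : ℤ)
  rw [RingOfIntegers.rank, finrank_self, pow_one] at h
  have h2 : algebraMap ℤ (𝓞 ℚ) p = (p : 𝓞 ℚ) := map_natCast _ p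
  rw [h2] at h
  rw [h]
  simp

lemma pQ_ne_bot (p : ℕ) [hp : Fact p.Prime] : pQ p ≠ ⊥ := by
  intro h
  have := absNorm_pQ p
  rw [h, Ideal.absNorm_bot] at this
  exact hp.out.ne_zero this.symm

instance pQ_maximal (p : ℕ) [hp : Fact p.Prime] : (pQ p).IsMaximal :=
  (Ideal.isPrime_of_irreducible_absNorm (by
    rw [absNorm_pQ]; exact hp.out.prime.irreducible)).isMaximal (pQ_ne_bot p)

lemma mem_pQ (p : ℕ) : (p : 𝓞 ℚ) ∈ pQ p := Ideal.mem_span_singleton_self _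

variable (k) in
/-- The ramification index of `p` in `k`. -/
noncomputable def ram (p : ℕ) : ℕ := (pQ p).ramificationIdxIn (𝓞 k)

variable (k F) in
/-- The extension to `F` of the product of the primes of `k` above `p`. -/
noncomputable def bigR (p : ℕ) [Fact p.Prime] : Ideal (𝓞 F) :=
  (rad k (pQ p)).map (algebraMap (𝓞 k) (𝓞 F))

variable [IsGalois ℚ k]

lemma ram_pos (p : ℕ) [Fact p.Prime] : 0 < ram k p := ramIdx_pos (pQ p)

omit [NumberField F] in
lemma bigR_pow (p : ℕ) [Fact p.Prime] : (bigR k F p) ^ ram k p = span {(p : 𝓞 F)} := by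
  unfold bigR ram
  rw [← Ideal.map_pow, rad_pow (pQ p) (pQ_ne_bot p), pQ, Ideal.map_span, Ideal.map_span,
    Set.image_singleton, Set.image_singleton, map_natCast, map_natCast]

lemma absNorm_bigR (p : ℕ) [Fact p.Prime] :
    absNorm (bigR k F p) ^ ram k p = p ^ finrank ℚ F := by
  rw [← map_pow, bigR_pow, Ideal.absNorm_span_singleton]
  have h := Algebra.norm_algebraMap (S := 𝓞 F) (p : ℤ)
  rw [RingOfIntegers.rank] at h
  have h2 : algebraMap ℤ (𝓞 F) p = (p : 𝓞 F) := map_natCast _ p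
  rw [h2] at h
  rw [h, Int.natAbs_pow, Int.natAbs_natCast]

omit [NumberField F] in
lemma mem_bigR (p : ℕ) [Fact p.Prime] : (p : 𝓞 F) ∈ (bigR k F p) ^ ram k p := by
  rw [bigR_pow]
  exact Ideal.mem_span_singleton_self _

/-- The data attached to an integer `α` of `F`: conjugates over `k` and the elementary symmetric
functions of these. -/
structure Data (k : Type*) {F : Type*} [Field k] [Field F] [NumberField F]
    [Algebra k F] (α : 𝓞 F) (r : ℕ) where
  τ : Fin r → Gal(F/k)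
  j0 : Fin r
  one : τ j0 • α = α
  c : ℕ → 𝓞 k
  hc : ∀ i, algebraMap (𝓞 k) (𝓞 F) (c i) = es (fun j => τ j • α) i

variable {α : 𝓞 F} {r : ℕ} (D : Data k α r)

omit [IsGalois ℚ k] in
/-- The elementary symmetric functions of the transforms. -/
lemma es_lift (σ' : F ≃ₐ[ℚ] F) (σ : Gal(k/ℚ))
    (h : ∀ x : k, σ' (algebraMap k F x) = algebraMap k F (σ x)) (i : ℕ) :
    es (fun j => σ' • (D.τ j • α)) i = algebraMap (𝓞 k) (𝓞 F) (σ • D.c i) := by
  have h1 : es (fun j => σ' • (D.τ j • α)) i = σ' • es (fun j => D.τ j • α) i := by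
    unfold es
    exact (MvPolynomial.comp_aeval_apply (fun j => D.τ j • α)
      ((MulSemiringAction.toRingHom Gal(F/ℚ) (𝓞 F) σ').toIntAlgHom) _).symm
  rw [h1, ← D.hc i]
  apply RingOfIntegers.ext
  exact h (D.c i : k)

omit [IsGalois ℚ k] in
/-- The congruence in the ramified case. -/
lemma cong_inertia (p : ℕ) [Fact p.Prime] (σ' : F ≃ₐ[ℚ] F) (σ : Gal(k/ℚ))
    (h : ∀ x : k, σ' (algebraMap k F x) = algebraMap k F (σ x)) (v : ℕ)
    (hσ : ∀ x : 𝓞 k, σ • x - x ∈ rad k (pQ p) ^ v) (i : ℕ) :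
    es (fun j => σ' • (D.τ j • α)) i - es (fun j => D.τ j • α) i ∈ bigR k F p ^ v := by
  rw [es_lift D σ' σ h, ← D.hc i, ← map_sub]
  unfold bigR
  rw [← Ideal.map_pow]
  exact Ideal.mem_map_of_mem _ (hσ _)

/-- The congruence in the unramified case. -/
lemma cong_frob (p : ℕ) [hp : Fact p.Prime] (h1 : ram k p = 1) (σ' : F ≃ₐ[ℚ] F) (σ : Gal(k/ℚ))
    (h : ∀ x : k, σ' (algebraMap k F x) = algebraMap k F (σ x))
    (hσ : ∀ x : 𝓞 k, σ • x - x ^ p ∈ rad k (pQ p)) (i : ℕ) :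
    es (fun j => σ' • (D.τ j • α)) i - es (fun j => (D.τ j • α) ^ p) i ∈ bigR k F p ^ 1 := by
  obtain ⟨W, hW⟩ := es_pow (S := 𝓞 F) (r := r) p i
  rw [es_lift D σ' σ h, hW, ← D.hc i, ← sub_sub, ← map_pow, ← map_sub]
  refine Ideal.sub_mem _ ?_ ?_
  · rw [pow_one]
    exact Ideal.mem_map_of_mem _ (hσ _)
  · have h2 := mem_bigR (k := k) (F := F) p
    rw [h1] at h2
    exact Ideal.mul_mem_right _ _ h2

omit [IsGalois ℚ k] in
lemma coe_restrict (τ : Gal(F/k)) (σ' : F ≃ₐ[ℚ] F) (x : 𝓞 F) :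
    σ' • (τ • x) = (σ' * τ.restrictScalars ℚ) • x := rfl

include D in
/-- The inequality from an element of the inertia group. -/
theorem ineq_inertia (p : ℕ) [hp : Fact p.Prime] (σ' : F ≃ₐ[ℚ] F) (σ : Gal(k/ℚ))
    (h : ∀ x : k, σ' (algebraMap k F x) = algebraMap k F (σ x)) (v : ℕ)
    (hσ : ∀ x : 𝓞 k, σ • x - x ∈ rad k (pQ p) ^ v)
    (hne : ∀ ρ : F ≃ₐ[ℚ] F, (∀ x : k, ρ (algebraMap k F x) = algebraMap k F (σ x)) → ∀ m, 0 < m →
      α ^ m ≠ (ρ • α) ^ m) (n : ℕ) (hn : ∀ m < n, (p - 1) * (v * p ^ m) ≤ ram k p)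
    (hn' : ram k p ≤ (p - 1) * (v * p ^ n)) :
    (p : ℝ) ^ ((v * p ^ n + ram k p) * dg α) ≤
      ((2 ^ dg α * MM α ^ (p ^ n * p + p ^ n * p)) ^ r) ^ ram k p := by
  have h1 := es_high p (mem_bigR (k := k) (F := F) p)
    (es_low p (mem_bigR (k := k) (F := F) p) (cong_inertia D p σ' σ h v hσ) n hn) hn'
  simp only [← pow_mul] at h1
  have h2 := prod_mem h1 D.j0
  rw [D.one] at h2
  have hm : 0 < p ^ n * p := Nat.mul_pos (pow_pos hp.out.pos n) hp.out.pos
  refine key_ineq' p (bigR k F p) (ram k p) (absNorm_bigR p) α _ _ _ _ _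
    (hgt_coe_pow α _) (fun j => ?_) h2 (fun j => ?_)
  · rw [hgt_coe_pow, hgt_smul, hgt_smul]
  · rw [coe_restrict]
    refine hne _ (fun x => ?_) _ hm
    rw [← h]
    change σ' ((D.τ j) (algebraMap k F x)) = _
    rw [AlgEquiv.commutes]

include D in
/-- The inequality from a Frobenius element. -/
theorem ineq_frob (p : ℕ) [hp : Fact p.Prime] (h1 : ram k p = 1) (σ' : F ≃ₐ[ℚ] F)
    (σ : Gal(k/ℚ)) (h : ∀ x : k, σ' (algebraMap k F x) = algebraMap k F (σ x))
    (hσ : ∀ x : 𝓞 k, σ • x - x ^ p ∈ rad k (pQ p)) (hα0 : α ≠ 0) (hα : ∀ m, 0 < m → α ^ m ≠ 1)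
    (n : ℕ) :
    (p : ℝ) ^ ((1 + n) * dg α) ≤ (2 ^ dg α * MM α ^ (p * p ^ n + p ^ n)) ^ r := by
  have hp1 : 1 ≤ p - 1 := by
    have := hp.out.one_lt
    omega
  have h2 : ∀ n : ℕ, ∀ i, es (fun j => (σ' • (D.τ j • α)) ^ (p ^ n)) i -
      es (fun j => ((D.τ j • α) ^ p) ^ (p ^ n)) i ∈ bigR k F p ^ (1 + n) := by
    intro n
    induction n with
    | zero =>
      have := cong_frob D p h1 σ' σ h hσ
      simpa using this
    | succ n ih =>
      intro i
      have h3 := mem_bigR (k := k) (F := F) p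
      rw [h1] at h3
      have h4 := es_high p h3 ih (by nlinarith) i
      have h5 : ∀ z : 𝓞 F, z ^ p ^ (n + 1) = (z ^ p ^ n) ^ p := fun z => by
        rw [← pow_mul, ← pow_succ]
      simp only [h5]
      exact h4
  have h3 := prod_mem (h2 n) D.j0
  rw [D.one] at h3
  have h4 := absNorm_bigR (k := k) (F := F) p
  rw [h1] at h4
  have h5 := key_ineq' p (bigR k F p) 1 h4 α (r := r) _ _ (p * p ^ n) (p ^ n) (1 + n)
    (by rw [← pow_mul, hgt_coe_pow]) (fun j => ?_) h3 (fun j => ?_)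
  · rwa [pow_one] at h5
  · rw [hgt_coe_pow, hgt_smul, hgt_smul]
  · rw [coe_restrict]
    exact frob_ne (k := ℚ) (σ' * (D.τ j).restrictScalars ℚ) α hα0 hα p hp.out.two_le (p ^ n)
      (pow_pos hp.out.pos n)

end data

end Pool.Agent.H25.AbDeg
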