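import Pool.Agent.H25.AbDeg.Step

/-!
# Roots of degree at most three over an abelian extension of the rationals
-/

open Polynomial N60ffa576 Module NumberField IntermediateField

open scoped Pointwise

namespace Pool.Agent.H25.AbDeg

open Pool.Agent.H21.Leh Pool.Agent.H25

section

variable {K Ω : Type*} [Field K] [CharZero K] [Field Ω] [CharZero Ω] [Algebra K Ω]

/-- The degree over `K` of an element of `ℚ(a)` is at most the degree of `a`. -/
lemma deg_le_of_mem (a b : Ω) (ha : IsIntegral K a) (hb : b ∈ ℚ⟮a⟯) :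
    (minpoly K b).natDegree ≤ (minpoly K a).natDegree := by
  have h1 : ℚ⟮a⟯ ≤ (K⟮a⟯).restrictScalars ℚ := by
    rw [IntermediateField.adjoin_simple_le_iff]
    exact mem_adjoin_simple_self K a
  have h2 : K⟮b⟯ ≤ K⟮a⟯ := by
    rw [IntermediateField.adjoin_simple_le_iff]
    exact h1 hb
  have hfd : FiniteDimensional K K⟮a⟯ := IntermediateField.adjoin.finiteDimensional ha
  have hbi : IsIntegral K b := by
    have h3 : b ∈ K⟮a⟯ := h2 (mem_adjoin_simple_self K b)
    have h4 : IsIntegral K (⟨b, h3⟩ : K⟮a⟯) := Algebra.IsIntegral.isIntegral _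
    exact h4.map (K⟮a⟯).val
  rw [← IntermediateField.adjoin.finrank ha, ← IntermediateField.adjoin.finrank hbi]
  exact IntermediateField.finrank_le_of_le_right h2

/-- One step of the induction. -/
lemma step3 [IsAbelianGalois ℚ K] [IsGalois ℚ Ω] (a : Ω) (ha : IsIntegral ℤ a) (h0 : a ≠ 0)
    (h1 : ∀ m, 0 < m → a ^ m ≠ 1) (hdeg : (minpoly K a).natDegree ≤ 3)
    (hn : 8 ≤ (minpoly ℤ a).natDegree) (heven : Even (minpoly ℤ a).natDegree) :
    2 ≤ mahlerMeasureZ (minpoly ℤ a) ^ 4 ∨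
    ∃ b : Ω, IsIntegral ℤ b ∧ b ≠ 0 ∧ (∀ m, 0 < m → b ^ m ≠ 1) ∧
      (minpoly K b).natDegree ≤ 3 ∧ (minpoly ℤ b).natDegree < (minpoly ℤ a).natDegree ∧
      mahlerMeasureZ (minpoly ℤ b) ≤ mahlerMeasureZ (minpoly ℤ a) := by
  have haK : IsIntegral K a := ha.tower_top
  have haQ : IsIntegral ℚ a := ha.tower_top
  have hfdE : FiniteDimensional ℚ ℚ⟮a⟯ := IntermediateField.adjoin.finiteDimensional haQ
  -- the Galois closure
  set F : IntermediateField ℚ Ω := normalClosure ℚ ℚ⟮a⟯ Ω with hF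
  have hle : ℚ⟮a⟯ ≤ F := ℚ⟮a⟯.le_normalClosure
  have hnorm : Normal ℚ F := normalClosure.normal ℚ ℚ⟮a⟯ Ω
  have hfd : FiniteDimensional ℚ F := normalClosure.is_finiteDimensional ℚ ℚ⟮a⟯ Ω
  have hgal : IsGalois ℚ F := { to_isSeparable := inferInstance, to_normal := hnorm }
  have hnf : NumberField F := { to_finiteDimensional := hfd }
  have haF : a ∈ F := hle (mem_adjoin_simple_self ℚ a)
  have hinjF : Function.Injective (algebraMap F Ω) := (algebraMap F Ω).injective
  have haint : IsIntegral ℤ (⟨a, haF⟩ : F) :=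
    (isIntegral_algHom_iff (IsScalarTower.toAlgHom ℤ F Ω) hinjF).1 ha
  set α : 𝓞 F := ⟨⟨a, haF⟩, haint⟩ with hα
  have hαF : algebraMap F Ω (α : F) = a := rfl
  have hmin : minpoly ℤ (α : F) = minpoly ℤ a := (minpoly.algebraMap_eq hinjF (α : F)).symm
  have hlift : IntermediateField.lift (ℚ⟮(α : F)⟯) = ℚ⟮a⟯ :=
    IntermediateField.lift_adjoin_simple (F := ℚ) F (α : F)
  have hmemE : ∀ x : F, (x : Ω) ∈ ℚ⟮a⟯ ↔ x ∈ ℚ⟮(α : F)⟯ := by
    intro x
    rw [← hlift]
    exact IntermediateField.mem_lift x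
  -- the abelian field
  set ι : K →ₐ[ℚ] Ω := IsScalarTower.toAlgHom ℚ K Ω with hι
  set k : IntermediateField ℚ F := (ι.fieldRange.comap F.val) ⊓ ℚ⟮(α : F)⟯ with hk
  have hkmem : ∀ x : F, x ∈ k ↔ ((x : Ω) ∈ ι.fieldRange ∧ x ∈ ℚ⟮(α : F)⟯) := fun x => Iff.rfl
  have hknf : NumberField k := NumberField.of_intermediateField k
  have hkhom : ∃ f : k →ₐ[ℚ] ι.fieldRange, True := by
    refine ⟨((F.val.comp k.val).codRestrict ι.fieldRange.toSubalgebra ?_), trivial⟩
    intro x
    exact ((hkmem x).1 x.2).1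
  obtain ⟨f, -⟩ := hkhom
  have hkab : IsAbelianGalois ℚ k :=
    IsAbelianGalois.of_algHom (ι.equivFieldRange.symm.toAlgHom.comp f)
  have hkE : ∀ x : k, algebraMap k F x ∈ ℚ⟮(α : F)⟯ := fun x => ((hkmem x).1 x.2).2
  -- the degree over `k`
  have hdegk : (minpoly k (α : F)).natDegree ≤ (minpoly K a).natDegree := by
    set P := minpoly K a with hP
    set j : k →+* Ω := (F.val.comp k.val).toRingHom with hj
    have hcoef : ∀ n, (P.map (algebraMap K Ω)).coeff n ∈ Set.range j := by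
      intro n
      have h2 := coeff_mem (K := K) a haK n
      rw [coeff_map]
      have h3 : algebraMap K Ω (P.coeff n) ∈ F := hle h2
      have h4 : (⟨algebraMap K Ω (P.coeff n), h3⟩ : F) ∈ k := by
        rw [hkmem]
        exact ⟨⟨P.coeff n, rfl⟩, (hmemE _).1 h2⟩
      exact ⟨⟨_, h4⟩, rfl⟩
    have hPm : (P.map (algebraMap K Ω)).Monic := (minpoly.monic haK).map _
    obtain ⟨q, hq, hqd, hqm⟩ := lifts_and_natDegree_eq_and_monic
      ((lifts_iff_coeff_lifts _).2 hcoef) hPm
    rw [(minpoly.monic haK).natDegree_map] at hqd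
    rw [← hqd]
    have hroot : aeval (α : F) q = 0 := by
      apply hinjF
      rw [map_zero]
      have h2 : algebraMap F Ω (aeval (α : F) q) = eval₂ j a q := by
        rw [aeval_def, hom_eval₂]
        rfl
      rw [h2, ← eval_map, hq, eval_map, ← aeval_def]
      exact minpoly.aeval K a
    exact natDegree_le_of_dvd (minpoly.dvd k _ hroot) hqm.ne_zero
  have hα0 : α ≠ 0 := by
    intro h
    apply h0
    rw [← hαF, h]
    exact map_zero _
  have hα1 : ∀ m, 0 < m → α ^ m ≠ 1 := by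
    intro m hm h
    apply h1 m hm
    have h2 : (α : F) ^ m = 1 := by
      have := congrArg (fun z : 𝓞 F => (z : F)) h
      simpa using this
    rw [← hαF, ← map_pow, h2, map_one]
  have hMM : MM α = mahlerMeasureZ (minpoly ℤ a) := by
    unfold MM; rw [hmin]
  have hdg : dg α = (minpoly ℤ a).natDegree := by
    unfold dg; rw [hmin]
  have hpos : 0 < (minpoly k (α : F)).natDegree :=
    minpoly.natDegree_pos (Algebra.IsIntegral.isIntegral _)
  rcases (by omega : (minpoly k (α : F)).natDegree = 1 ∨ 2 ≤ (minpoly k (α : F)).natDegree) with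
    hr | hr
  · -- `a` lies in `K`
    left
    obtain ⟨x, hx⟩ := minpoly.natDegree_eq_one_iff.1 hr
    have h2 : (α : F) ∈ k := by rw [← hx]; exact x.2
    obtain ⟨y, hy⟩ := ((hkmem _).1 h2).1
    have hy' : algebraMap K Ω y = a := hy
    have hyint : IsIntegral ℤ y :=
      (isIntegral_algHom_iff (IsScalarTower.toAlgHom ℤ K Ω) (algebraMap K Ω).injective).1
        (hy'.symm ▸ ha)
    have hminy : minpoly ℤ y = minpoly ℤ a := by
      rw [← hy']
      exact (minpoly.algebraMap_eq (algebraMap K Ω).injective y).symm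
    rw [← hminy]
    refine main_int (k := ℚ) (by simp) _ y hyint ?_ ?_ rfl
    · rintro rfl
      exact h0 (by rw [← hy', map_zero])
    · intro m hm h
      apply h1 m hm
      rw [← hy', ← map_pow, h, map_one]
  by_cases hfree : Free k α
  · left
    rw [← hMM]
    exact free_case α hkE hr (hdegk.trans hdeg) hα0 hα1 (by omega) (by rwa [hdg]) hfree
  · right
    obtain ⟨b, m, d, hbint, hbE, hm, hd, hbm, hlt, hle'⟩ := descent_case α hkE hfree
    have hminb : minpoly ℤ (algebraMap F Ω b) = minpoly ℤ b := by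
      rw [minpoly.algebraMap_eq hinjF]
    have hbm' : (algebraMap F Ω b) ^ m = a ^ (m * d) := by
      rw [← map_pow, hbm, map_pow, hαF]
    refine ⟨algebraMap F Ω b, hbint.map (IsScalarTower.toAlgHom ℤ F Ω), ?_, ?_, ?_, ?_, ?_⟩
    · intro h
      rw [h, zero_pow hm.ne'] at hbm'
      exact pow_ne_zero _ h0 hbm'.symm
    · intro j hj hj1
      apply h1 (m * d * j) (Nat.mul_pos (Nat.mul_pos hm hd) hj)
      rw [pow_mul, ← hbm', ← pow_mul, mul_comm, pow_mul, hj1, one_pow]
    · exact (deg_le_of_mem a _ haK ((hmemE b).2 hbE)).trans hdeg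
    · rw [hminb, ← hdg]
      exact hlt
    · rw [hminb, ← hMM]
      exact hle'

/-- The inequality for algebraic integers. -/
theorem main3_int [IsAbelianGalois ℚ K] [IsGalois ℚ Ω] (n : ℕ) : ∀ a : Ω, IsIntegral ℤ a → a ≠ 0 →
      (∀ m, 0 < m → a ^ m ≠ 1) → (minpoly K a).natDegree ≤ 3 → (minpoly ℤ a).natDegree = n →
      2 ≤ mahlerMeasureZ (minpoly ℤ a) ^ 4 := by
  induction n using Nat.strong_induction_on with
  | _ n ih =>
  intro a ha h0 h1 hdeg hn
  have hpos : 0 < (minpoly ℤ a).natDegree := minpoly.natDegree_pos ha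
  rcases (by omega : n = 1 ∨ 2 ≤ n) with hn1 | hn2
  · exact deg_one_case a ha h0 h1 (hn.trans hn1)
  have hg := good_minpoly a ha h0 h1 (by omega)
  rcases le_or_gt 1.28 (mahlerMeasureZ (minpoly ℤ a)) with h | h
  · exact two_le_of h
  obtain ⟨hrev, heven⟩ := even_of hg h
  by_cases h2 : n = 2
  · exact deg_two hg (hn.trans h2)
  by_cases h4 : n = 4
  · exact deg_four hg (hn.trans h4)
  by_cases h6 : n = 6
  · exact deg_six hg (hn.trans h6)
  have h8 : 8 ≤ n := by
    have := heven.two_dvd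
    omega
  rcases step3 a ha h0 h1 hdeg (by omega) heven with h5 | ⟨b, hb, hb0, hb1, hbdeg, hblt, hble⟩
  · exact h5
  · have h7 := ih _ (hn ▸ hblt) b hb hb0 hb1 hbdeg rfl
    exact h7.trans (pow_le_pow_left₀ (mmZ_nonneg _) hble 4)

/-- The inequality for all integer polynomials, in a Galois extension of the rationals. -/
theorem main3_gal [IsAbelianGalois ℚ K] [IsGalois ℚ Ω] (f : ℤ[X]) (hf : f ≠ 0) (a : Ω)
    (hfa : aeval a f = 0) (h0 : a ≠ 0) (h1 : ∀ m, 0 < m → a ^ m ≠ 1)
    (hdeg : (minpoly K a).natDegree ≤ 3) : 2 ≤ mahlerMeasureZ f ^ 4 := by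
  by_cases hlc : |f.leadingCoeff| = 1
  · have ha : IsIntegral ℤ a := by
      have h2 : f.leadingCoeff * f.leadingCoeff = 1 := by
        rcases (abs_eq (by norm_num : (0:ℤ) ≤ 1)).1 hlc with h | h <;> rw [h] <;> norm_num
      refine ⟨C f.leadingCoeff * f, ?_, ?_⟩
      · rw [Monic, leadingCoeff_mul, leadingCoeff_C, h2]
      · rw [← aeval_def, map_mul, hfa, mul_zero]
    obtain ⟨g, hg⟩ := minpoly.isIntegrallyClosed_dvd ha hfa
    have hg0 : g ≠ 0 := by
      rintro rfl
      rw [mul_zero] at hg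
      exact hf hg
    have h2 := main3_int _ a ha h0 h1 hdeg rfl
    have h3 : mahlerMeasureZ (minpoly ℤ a) ≤ mahlerMeasureZ f := by
      conv_rhs => rw [hg]
      rw [mmZ_mul]
      exact le_mul_of_one_le_right (mmZ_nonneg _) (one_le_mmZ hg0)
    exact h2.trans (pow_le_pow_left₀ (mmZ_nonneg _) h3 4)
  · have h2 : 2 ≤ |f.leadingCoeff| := by
      have : 1 ≤ |f.leadingCoeff| := Int.one_le_abs (leadingCoeff_ne_zero.2 hf)
      omega
    have h3 : (2 : ℝ) ≤ |(f.leadingCoeff : ℝ)| := by exact_mod_cast h2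
    exact two_le_of (by linarith [lc_le_mmZ f])

end

/-- The general case. -/
theorem main3 {K L : Type*} [Field K] [CharZero K] [IsAbelianGalois ℚ K] [Field L] [CharZero L]
    [Algebra K L] (f : ℤ[X]) (hf : f ≠ 0) (a : L) (hfa : aeval a f = 0) (h0 : a ≠ 0)
    (h1 : ∀ m, 0 < m → a ^ m ≠ 1) (hdeg : (minpoly K a).natDegree ≤ 3) :
    2 ≤ mahlerMeasureZ f ^ 4 := by
  have hinj : Function.Injective (algebraMap ℤ K) := (algebraMap ℤ K).injective_int
  have haK : IsIntegral K a := by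
    rw [← isAlgebraic_iff_isIntegral]
    refine ⟨f.map (algebraMap ℤ K), (Polynomial.map_ne_zero_iff hinj).2 hf, ?_⟩
    rw [aeval_map_algebraMap]
    exact hfa
  have hdvd : minpoly K a ∣ f.map (algebraMap ℤ K) := minpoly.dvd K a (by
    rw [aeval_map_algebraMap]
    exact hfa)
  obtain ⟨b, hb⟩ := IsAlgClosed.exists_aeval_eq_zero (AlgebraicClosure K) (minpoly K a)
    (minpoly.degree_pos haK).ne'
  have hmin : minpoly K b = minpoly K a :=
    (minpoly.eq_of_irreducible_of_monic (minpoly.irreducible haK) hb (minpoly.monic haK)).symm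
  have hfb : aeval b f = 0 := by
    obtain ⟨g, hg⟩ := hdvd
    have h2 : aeval b (f.map (algebraMap ℤ K)) = 0 := by
      rw [hg, map_mul, hb, zero_mul]
    rwa [aeval_map_algebraMap] at h2
  have hb0 : b ≠ 0 := by
    rintro rfl
    apply h0
    have h2 := minpoly.aeval K a
    rw [← hmin, minpoly.zero, aeval_X] at h2
    exact h2
  have hb1 : ∀ m, 0 < m → b ^ m ≠ 1 := by
    intro m hm h
    apply h1 m hm
    have h2 : minpoly K b ∣ X ^ m - 1 := minpoly.dvd K b (by
      rw [map_sub, map_pow, aeval_X, map_one, h, sub_self])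
    obtain ⟨g, hg⟩ := h2
    have h3 := congrArg (aeval a) hg
    rw [map_mul, hmin, minpoly.aeval, zero_mul, map_sub, map_pow, aeval_X, map_one] at h3
    exact sub_eq_zero.1 h3
  have halg : Algebra.IsAlgebraic ℚ (AlgebraicClosure K) :=
    Algebra.IsAlgebraic.trans ℚ K (AlgebraicClosure K)
  have hcl : IsAlgClosure ℚ (AlgebraicClosure K) := ⟨inferInstance, halg⟩
  exact main3_gal (K := K) f hf b hfb hb0 hb1 (by rw [hmin]; exact hdeg)

end Pool.Agent.H25.AbDeg
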