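import Pool.Agent.H25.AbDeg.Cases

/-!
# The construction of the data
-/

open Polynomial N60ffa576 Module NumberField IntermediateField Ideal

open scoped Pointwise

namespace Pool.Agent.H25.AbDeg

open Pool.Agent.H21.Leh Pool.Agent.H25

lemma exists_fin {A : Type*} (m : Multiset A) (r : ℕ) (h : Multiset.card m = r) :
    ∃ e : Fin r → A, Finset.univ.val.map e = m := by
  subst h
  induction m using Quotient.inductionOn with
  | _ l =>
  refine ⟨fun i => l.get i, ?_⟩
  rw [Fin.univ_val_map]
  simp

section coeff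

variable {K Ω : Type*} [Field K] [CharZero K] [Field Ω] [CharZero Ω] [Algebra K Ω]

/-- The minimal polynomial over a normal extension of `ℚ` has coefficients in the field generated
by the element. -/
lemma coeff_mem [Normal ℚ K] [IsGalois ℚ Ω] (a : Ω) (ha : IsIntegral K a) (i : ℕ) :
    algebraMap K Ω ((minpoly K a).coeff i) ∈ ℚ⟮a⟯ := by
  rw [← InfiniteGalois.fixedField_fixingSubgroup ℚ⟮a⟯, IntermediateField.mem_fixedField_iff]
  intro τ hτ
  rw [IntermediateField.mem_fixingSubgroup_iff] at hτ
  have hτa : τ a = a := hτ a (mem_adjoin_simple_self ℚ a)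
  set σ : K ≃ₐ[ℚ] K := τ.restrictNormal K with hσ
  have hcomm : ∀ x : K, algebraMap K Ω (σ x) = τ (algebraMap K Ω x) := fun x =>
    AlgEquiv.restrictNormal_commutes τ K x
  set P := minpoly K a with hP
  have hPm : P.Monic := minpoly.monic ha
  have h1 : aeval a (P.map (σ : K →+* K)) = 0 := by
    have h2 : (algebraMap K Ω).comp (σ : K →+* K) = (τ : Ω →+* Ω).comp (algebraMap K Ω) := by
      ext x
      exact hcomm x
    rw [aeval_def, eval₂_map, h2]
    have h3 : eval₂ ((τ : Ω →+* Ω).comp (algebraMap K Ω)) (τ a) P = τ (eval₂ (algebraMap K Ω) a P) :=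
      (hom_eval₂ P (algebraMap K Ω) (τ : Ω →+* Ω) a).symm
    rw [hτa] at h3
    rw [h3, ← aeval_def, minpoly.aeval, map_zero]
  have h2 : P ∣ P.map (σ : K →+* K) := minpoly.dvd K a h1
  have h3 : P = P.map (σ : K →+* K) :=
    (eq_of_monic_of_dvd_of_natDegree_le hPm (hPm.map _) h2 (by rw [hPm.natDegree_map])).symm
  rw [← hcomm]
  conv_rhs => rw [h3, coeff_map]
  rfl

end coeff

section data

variable {k F : Type*} [Field k] [NumberField k] [Field F] [NumberField F] [Algebra k F]

lemma exists_data [IsGalois ℚ F] (α : 𝓞 F) : Nonempty (Data k α (minpoly k (α : F)).natDegree) := by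
  have hgal : IsGalois k F := IsGalois.tower_top_of_isGalois ℚ k F
  set Q := minpoly k (α : F) with hQ
  have hint : IsIntegral k (α : F) := Algebra.IsIntegral.isIntegral _
  have hQm : Q.Monic := minpoly.monic hint
  have hsplit : (Q.map (algebraMap k F)).Splits := Normal.splits hgal.to_normal (α : F)
  have hcard : Multiset.card (Q.aroots F) = Q.natDegree := by
    unfold Polynomial.aroots
    rw [splits_iff_card_roots.1 hsplit, natDegree_map]
  obtain ⟨e, he⟩ := exists_fin (Q.aroots F) Q.natDegree hcard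
  have hprod : ∏ j, (X - C (e j)) = Q.map (algebraMap k F) := by
    have h1 := hsplit.eq_prod_roots_of_monic (hQm.map _)
    rw [h1, Finset.prod_eq_multiset_prod]
    change _ = ((Q.aroots F).map _).prod
    rw [← he, Multiset.map_map]
    rfl
  have hroot : ∀ j, aeval (e j) Q = 0 := by
    intro j
    have h1 : e j ∈ Q.aroots F := by
      rw [← he]
      exact Multiset.mem_map_of_mem e (Finset.mem_univ j)
    exact (mem_aroots.1 h1).2
  choose τ hτ using fun j => minpoly.exists_algEquiv_of_root' (K := k) (L := F)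
    (x := e j) (y := (α : F)) (Algebra.IsAlgebraic.isAlgebraic _) (hroot j)
  obtain ⟨j0, hj0⟩ : ∃ j0, e j0 = (α : F) := by
    have h1 : (α : F) ∈ Q.aroots F := mem_aroots.2 ⟨hQm.ne_zero, minpoly.aeval k (α : F)⟩
    rw [← he, Multiset.mem_map] at h1
    obtain ⟨j, _, hj⟩ := h1
    exact ⟨j, hj⟩
  have hcoe : ∀ j, ((τ j • α : 𝓞 F) : F) = e j := fun j => hτ j
  have hprod2 : (∏ j, (X - C (τ j • α))).map (algebraMap (𝓞 F) F) = Q.map (algebraMap k F) := by
    rw [← hprod, Polynomial.map_prod]
    refine Finset.prod_congr rfl fun j _ => ?_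
    rw [Polynomial.map_sub, map_X, map_C]
    exact congrArg (fun z => X - C z) (hcoe j)
  have hex : ∀ i, ∃ c : 𝓞 k, algebraMap (𝓞 k) (𝓞 F) c = es (fun j => τ j • α) i := by
    intro i
    rcases le_or_gt i Q.natDegree with hi | hi
    · have h1 := es_coeff (fun j => τ j • α) i hi
      have h2 : ((es (fun j => τ j • α) i : 𝓞 F) : F) =
          algebraMap k F ((-1) ^ i * Q.coeff (Q.natDegree - i)) := by
        rw [h1]
        have h3 := congrArg (fun P => P.coeff (Q.natDegree - i)) hprod2
        simp only [coeff_map] at h3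
        have h4 : (algebraMap (𝓞 F) F) ((-1) ^ i * (∏ j, (X - C (τ j • α))).coeff
            (Q.natDegree - i)) = (-1) ^ i * (algebraMap (𝓞 F) F)
              ((∏ j, (X - C (τ j • α))).coeff (Q.natDegree - i)) := by
          rw [map_mul, map_pow, map_neg, map_one]
        rw [h3] at h4
        rw [map_mul, map_pow, map_neg, map_one]
        exact h4
      have h5 : IsIntegral ℤ ((-1) ^ i * Q.coeff (Q.natDegree - i) : k) := by
        have h6 : IsIntegral ℤ (algebraMap k F ((-1) ^ i * Q.coeff (Q.natDegree - i))) := by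
          rw [← h2]
          exact RingOfIntegers.isIntegral_coe _
        exact (isIntegral_algHom_iff (IsScalarTower.toAlgHom ℤ k F)
          (algebraMap k F).injective).1 h6
      refine ⟨⟨_, h5⟩, ?_⟩
      apply RingOfIntegers.ext
      rw [h2]
      rfl
    · exact ⟨0, by rw [map_zero, es_zero_of_lt _ _ hi]⟩
  choose c hc using hex
  exact ⟨⟨τ, j0, by
    apply RingOfIntegers.ext
    rw [hcoe, hj0], c, hc⟩⟩

lemma dg_eq_mul (α : 𝓞 F) (h : ∀ x : k, algebraMap k F x ∈ ℚ⟮(α : F)⟯) :
    dg α = (minpoly k (α : F)).natDegree * finrank ℚ k := by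
  have h1 : (k⟮(α : F)⟯).restrictScalars ℚ = ℚ⟮(α : F)⟯ := by
    apply le_antisymm
    · intro x hx
      have h2 : (k⟮(α : F)⟯).toSubfield ≤ (ℚ⟮(α : F)⟯).toSubfield := by
        have : (k⟮(α : F)⟯).toSubfield = Subfield.closure (Set.range (algebraMap k F) ∪ {(α : F)}) :=
          rfl
        rw [this, Subfield.closure_le]
        rintro y (⟨z, rfl⟩ | hy)
        · exact h z
        · rw [Set.mem_singleton_iff.1 hy]
          exact mem_adjoin_simple_self ℚ (α : F)
      exact h2 hx
    · rw [IntermediateField.adjoin_simple_le_iff]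
      exact mem_adjoin_simple_self k (α : F)
  have hint : IsIntegral k (α : F) := Algebra.IsIntegral.isIntegral _
  have hintQ : IsIntegral ℚ (α : F) := Algebra.IsIntegral.isIntegral _
  have h2 : finrank ℚ k⟮(α : F)⟯ = dg α := by
    rw [dg_eq, ← IntermediateField.adjoin.finrank hintQ, ← h1]
    rfl
  rw [← h2, ← IntermediateField.adjoin.finrank hint, mul_comm]
  exact (Module.finrank_mul_finrank ℚ k k⟮(α : F)⟯).symm

end data

end Pool.Agent.H25.AbDeg
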