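import Pool.Agent.H25.CheckMid
import Pool.Agent.H21.Leh.Small

/-!
# Irreducible polynomials of degree six
-/

open Polynomial N60ffa576

namespace Pool.Agent.H25.AbDeg

open Pool.Agent.H25 Pool.Agent.H21.Leh

def certU (l : List ℤ) (r i : ℕ) : Bool :=
  Nat.ble (11893 ^ (2 ^ r) * (l.length - 1).factorial)
    (10000 ^ (2 ^ r) * (l.getD i 0).natAbs * (i.factorial * (l.length - 1 - i).factorial))

def searchU (l : List ℤ) (r : ℕ) : ℕ → Bool
  | 0 => certU l r 0
  | i + 1 => certU l r (i + 1) || searchU l r i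

def searchV : ℕ → List ℤ → ℕ → Bool
  | 0, l, r => searchU l r ((l.length - 1) / 2)
  | fuel + 1, l, r => searchU l r ((l.length - 1) / 2) || searchV fuel (graeffe l) (r + 1)

lemma certU_sound (l : List ℤ) (r i : ℕ) (hi : i ≤ l.length - 1) (h : certU l r i = true) :
    (1.1893 : ℝ) ^ (2 ^ r) ≤ mahlerMeasureZ (toPoly l) := by
  unfold certU at h
  rw [Nat.ble_eq] at h
  set d := l.length - 1 with hd
  have h1 := abs_coeff_le (toPoly l) i d (natDegree_toPoly_le l)
  rw [coeff_toPoly] at h1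
  have h2 := Nat.choose_mul_factorial_mul_factorial hi
  rw [← h2] at h
  have h3 : 11893 ^ (2 ^ r) * d.choose i ≤ 10000 ^ (2 ^ r) * (l.getD i 0).natAbs := by
    have hpos : 0 < i.factorial * (d - i).factorial :=
      Nat.mul_pos (Nat.factorial_pos _) (Nat.factorial_pos _)
    apply Nat.le_of_mul_le_mul_right _ hpos
    calc 11893 ^ (2 ^ r) * d.choose i * (i.factorial * (d - i).factorial)
        = 11893 ^ (2 ^ r) * (d.choose i * i.factorial * (d - i).factorial) := by ring
      _ ≤ _ := h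
  have h4 : (11893 : ℝ) ^ (2 ^ r) * d.choose i ≤ 10000 ^ (2 ^ r) * |((l.getD i 0 : ℤ) : ℝ)| := by
    have : (((11893 ^ (2 ^ r) * d.choose i : ℕ)) : ℝ) ≤
        ((10000 ^ (2 ^ r) * (l.getD i 0).natAbs : ℕ) : ℝ) := by exact_mod_cast h3
    push_cast at this
    rw [Nat.cast_natAbs] at this
    push_cast at this
    exact this
  have h5 : (0:ℝ) < d.choose i := by exact_mod_cast Nat.choose_pos hi
  have h6 : (1.1893 : ℝ) ^ (2 ^ r) = 11893 ^ (2 ^ r) / 10000 ^ (2 ^ r) := by
    rw [← div_pow]; norm_num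
  rw [h6, div_le_iff₀ (by positivity)]
  have h7 : (11893 : ℝ) ^ (2 ^ r) * d.choose i ≤
      (mahlerMeasureZ (toPoly l) * 10000 ^ (2 ^ r)) * d.choose i := by
    calc (11893 : ℝ) ^ (2 ^ r) * d.choose i ≤ 10000 ^ (2 ^ r) * |((l.getD i 0 : ℤ) : ℝ)| := h4
      _ ≤ 10000 ^ (2 ^ r) * (d.choose i * mahlerMeasureZ (toPoly l)) := by gcongr
      _ = _ := by ring
  exact le_of_mul_le_mul_right h7 h5

lemma searchU_sound (l : List ℤ) (r : ℕ) : ∀ j : ℕ, j ≤ l.length - 1 → searchU l r j = true →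
    (1.1893 : ℝ) ^ (2 ^ r) ≤ mahlerMeasureZ (toPoly l)
  | 0, hj, h => certU_sound l r 0 hj h
  | j + 1, hj, h => by
    rw [searchU, Bool.or_eq_true] at h
    rcases h with h | h
    · exact certU_sound l r (j + 1) hj h
    · exact searchU_sound l r j (by omega) h

lemma searchV_sound (M : ℝ) (hM : 0 ≤ M) : ∀ (fuel : ℕ) (l : List ℤ) (r : ℕ),
    mahlerMeasureZ (toPoly l) = M ^ (2 ^ r) → searchV fuel l r = true → 1.1893 ≤ M
  | 0, l, r, he, h => by
    have h1 := searchU_sound l r _ (by omega) h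
    rw [he] at h1
    exact le_of_pow_le_pow_left₀ (by positivity) hM h1
  | fuel + 1, l, r, he, h => by
    rw [searchV, Bool.or_eq_true] at h
    rcases h with h | h
    · have h1 := searchU_sound l r _ (by omega) h
      rw [he] at h1
      exact le_of_pow_le_pow_left₀ (by positivity) hM h1
    · apply searchV_sound M hM fuel (graeffe l) (r + 1) _ h
      rw [mm_graeffe, he, ← pow_mul, pow_succ]

/-- The list of coefficients. -/
def six (a b c : ℤ) : List ℤ := [1, a, b, c, b, a, 1]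

def okS (a b c : ℤ) : Bool := searchV 5 (six a b c) 0 || cycC (six a b c)

def okC (a b : ℤ) : ℕ → Bool
  | 0 => true
  | i + 1 => okS a b (2 * i + 1) && okS a b (-(2 * i + 1)) && okC a b i

def okB (a : ℤ) : ℕ → Bool
  | 0 => true
  | i + 1 => okC a (2 * i + 1) 12 && okC a (-(2 * i + 1)) 12 && okB a i

def okA : Bool := okB 0 9 && okB 2 9 && okB (-2) 9 && okB 4 9 && okB (-4) 9 && okB 6 9 && okB (-6) 9

set_option maxRecDepth 100000 in
theorem okA_true : okA = true := by decide +kernel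

lemma okC_spec (a b : ℤ) : ∀ n : ℕ, okC a b n = true → ∀ c : ℤ, ¬ (2 : ℤ) ∣ c → |c| < 2 * n →
    okS a b c = true
  | 0, _, c, _, h => by
    have := abs_nonneg c
    simp at h
    omega
  | n + 1, hn, c, hc, h => by
    rw [okC, Bool.and_eq_true, Bool.and_eq_true] at hn
    have h1 : |c| < 2 * (n : ℤ) ∨ |c| = 2 * n + 1 := by
      push_cast at h
      have : |c| ≠ 2 * n := by
        intro h'
        rcases abs_cases c with ⟨h2, _⟩ | ⟨h2, _⟩ <;> omega
      omega
    rcases h1 with h1 | h1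
    · exact okC_spec a b n hn.2 c hc h1
    · rcases (abs_eq (by omega)).1 h1 with h2 | h2
      · rw [h2]; exact hn.1.1
      · rw [h2]; exact hn.1.2

lemma okB_spec (a : ℤ) : ∀ n : ℕ, okB a n = true → ∀ b : ℤ, ¬ (2 : ℤ) ∣ b → |b| < 2 * n →
    okC a b 12 = true
  | 0, _, c, _, h => by
    have := abs_nonneg c
    simp at h
    omega
  | n + 1, hn, c, hc, h => by
    rw [okB, Bool.and_eq_true, Bool.and_eq_true] at hn
    have h1 : |c| < 2 * (n : ℤ) ∨ |c| = 2 * n + 1 := by
      push_cast at h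
      have : |c| ≠ 2 * n := by
        intro h'
        rcases abs_cases c with ⟨h2, _⟩ | ⟨h2, _⟩ <;> omega
      omega
    rcases h1 with h1 | h1
    · exact okB_spec a n hn.2 c hc h1
    · rcases (abs_eq (by omega)).1 h1 with h2 | h2
      · rw [h2]; exact hn.1.1
      · rw [h2]; exact hn.1.2

lemma ok_spec (a b c : ℤ) (ha : (2 : ℤ) ∣ a) (ha7 : |a| ≤ 7) (hb : ¬ (2 : ℤ) ∣ b) (hb17 : |b| ≤ 17)
    (hc : ¬ (2 : ℤ) ∣ c) (hc23 : |c| ≤ 23) : okS a b c = true := by
  have h := okA_true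
  unfold okA at h
  simp only [Bool.and_eq_true] at h
  obtain ⟨⟨⟨⟨⟨⟨h0, h2⟩, h2'⟩, h4⟩, h4'⟩, h6⟩, h6'⟩ := h
  have hac : a = 0 ∨ a = 2 ∨ a = -2 ∨ a = 4 ∨ a = -4 ∨ a = 6 ∨ a = -6 := by
    rcases abs_cases a with ⟨h, _⟩ | ⟨h, _⟩ <;> omega
  refine okC_spec a b 12 (okB_spec a 9 ?_ b hb (by push_cast; omega)) c hc (by push_cast; omega)
  rcases hac with rfl | rfl | rfl | rfl | rfl | rfl | rfl
  · exact h0
  · exact h2
  · exact h2'
  · exact h4
  · exact h4'
  · exact h6
  · exact h6'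

lemma toPoly_six (a b c : ℤ) : toPoly (six a b c) =
    X ^ 6 + C a * X ^ 5 + C b * X ^ 4 + C c * X ^ 3 + C b * X ^ 2 + C a * X + 1 := by
  simp only [six, toPoly, map_one]
  ring

/-- Degree six. -/
theorem deg_six {f : ℤ[X]} (hf : Pool.Agent.H21.Leh.Good f) (hd : f.natDegree = 6) :
    2 ≤ mahlerMeasureZ f ^ 4 := by
  rcases le_or_gt 1.28 (mahlerMeasureZ f) with h | h
  · exact two_le_of h
  obtain ⟨hrev, -⟩ := even_of hf h
  have h1193 : 1.1893 ≤ mahlerMeasureZ f → 2 ≤ mahlerMeasureZ f ^ 4 := by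
    intro h
    have : (1.1893 : ℝ) ^ 4 ≤ mahlerMeasureZ f ^ 4 := pow_le_pow_left₀ (by norm_num) h 4
    norm_num at this
    linarith
  have hM := mmZ_nonneg f
  have hlc : |f.leadingCoeff| = 1 := by rw [hf.monic.leadingCoeff]; norm_num
  have hc6 : f.coeff 6 = 1 := by rw [← hd]; exact hf.monic.coeff_natDegree
  have hsym : ∀ i ≤ 6, f.coeff (6 - i) = f.coeff i := by
    intro i hi
    have h2 := congrArg (fun P => P.coeff i) hrev
    simp only [coeff_reverse, hd, revAt_le hi] at h2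
    exact h2
  have hc0 : f.coeff 0 = 1 := by rw [← hsym 0 (by norm_num)]; exact hc6
  have hc5 : f.coeff 5 = f.coeff 1 := hsym 1 (by norm_num)
  have hc4 : f.coeff 4 = f.coeff 2 := hsym 2 (by norm_num)
  have hfs := f.as_sum_range
  rw [hd] at hfs
  simp only [Finset.sum_range_succ, Finset.range_zero, Finset.sum_empty, zero_add, hc0, hc4, hc5,
    hc6, ← C_mul_X_pow_eq_monomial, map_one, one_mul, pow_zero, pow_one] at hfs
  set a := f.coeff 1 with ha
  set b := f.coeff 2 with hb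
  set c := f.coeff 3 with hc
  have hfilter : ∀ T : Finset ℕ, T.card ≤ 4 → (∀ i, i < 7 → ¬ (2 : ℤ) ∣ f.coeff i → i ∈ T) →
      2 ≤ mahlerMeasureZ f ^ 4 := by
    intro T hT hTm
    refine few_case hf hrev (le_trans (Finset.card_le_card ?_) hT)
    intro i hi
    rw [Finset.mem_filter] at hi
    refine hTm i ?_ hi.2
    have := supp_subset_range_natDegree_succ hi.1
    rw [hd, Finset.mem_range] at this
    exact this
  by_cases ha2 : (2 : ℤ) ∣ a
  · by_cases hb2 : (2 : ℤ) ∣ b
    · refine hfilter {0, 3, 6} (by decide) fun i hi h2 => ?_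
      rcases (by omega : i = 1 ∨ i = 5 ∨ i = 2 ∨ i = 4 ∨ (i = 0 ∨ i = 3 ∨ i = 6)) with
        rfl | rfl | rfl | rfl | h'
      · exact absurd ha2 h2
      · rw [hc5] at h2; exact absurd ha2 h2
      · exact absurd hb2 h2
      · rw [hc4] at h2; exact absurd hb2 h2
      · simpa using h'
    by_cases hc2 : (2 : ℤ) ∣ c
    · refine hfilter {0, 2, 4, 6} (by decide) fun i hi h2 => ?_
      rcases (by omega : i = 1 ∨ i = 5 ∨ i = 3 ∨ (i = 0 ∨ i = 2 ∨ i = 4 ∨ i = 6)) with
        rfl | rfl | rfl | h'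
      · exact absurd ha2 h2
      · rw [hc5] at h2; exact absurd ha2 h2
      · exact absurd hc2 h2
      · simpa using h'
    -- the finite check
    rcases le_or_gt 1.1893 (mahlerMeasureZ f) with h' | h'
    · exact h1193 h'
    have hbound : ∀ i, |(f.coeff i : ℝ)| ≤ (Nat.choose 6 i : ℝ) * mahlerMeasureZ f := fun i =>
      abs_coeff_le f i 6 hd.le
    have ha7 : |a| ≤ 7 := by
      have h2 := hbound 1
      rw [← ha, show Nat.choose 6 1 = 6 by rfl] at h2
      have h3 : |(a : ℝ)| < 8 := by push_cast at h2; linarith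
      have h4 : |a| < 8 := by exact_mod_cast h3
      omega
    have hb17 : |b| ≤ 17 := by
      have h2 := hbound 2
      rw [← hb, show Nat.choose 6 2 = 15 by rfl] at h2
      have h3 : |(b : ℝ)| < 18 := by push_cast at h2; linarith
      have h4 : |b| < 18 := by exact_mod_cast h3
      omega
    have hc23 : |c| ≤ 23 := by
      have h2 := hbound 3
      rw [← hc, show Nat.choose 6 3 = 20 by rfl] at h2
      have h3 : |(c : ℝ)| < 24 := by push_cast at h2; linarith
      have h4 : |c| < 24 := by exact_mod_cast h3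
      omega
    have hok := ok_spec a b c ha2 ha7 hb2 hb17 hc2 hc23
    have hfp : toPoly (six a b c) = f := by rw [toPoly_six, hfs]; ring
    rw [okS, Bool.or_eq_true] at hok
    rcases hok with hok | hok
    · refine h1193 ?_
      rw [← hfp]
      exact searchV_sound _ (mmZ_nonneg _) 5 _ 0 (by simp) hok
    · exfalso
      have h3 := cycC_sound _ (by rw [hfp]; exact hf.monic.ne_zero) hok
      rw [hfp] at h3
      obtain ⟨a', ha'⟩ := ha2
      obtain ⟨b', hb'⟩ : ∃ b', b = 2 * b' + 1 := ⟨b / 2, by omega⟩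
      obtain ⟨c', hc'⟩ : ∃ c', c = 2 * c' + 1 := ⟨c / 2, by omega⟩
      have h4 := two_binomials f ((X - 1) ^ 2) (X - X ^ 2 - X ^ 6 + X ^ 7 -
        (C a' * X ^ 5 + C b' * X ^ 4 + C c' * X ^ 3 + C b' * X ^ 2 + C a' * X) * (X - 1) ^ 2) 3 5
        (by norm_num) (by norm_num) hlc hf.unity (by
          rw [hfs, ha', hb', hc']
          simp only [map_add, map_mul, map_one, map_ofNat]
          ring)
      rw [hd, h3] at h4
      norm_num at h4
  · obtain ⟨a', ha'⟩ : ∃ a', a = 2 * a' + 1 := ⟨a / 2, by omega⟩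
    by_cases hb2 : (2 : ℤ) ∣ b
    · by_cases hc2 : (2 : ℤ) ∣ c
      · refine hfilter {0, 1, 5, 6} (by decide) fun i hi h2 => ?_
        rcases (by omega : i = 2 ∨ i = 4 ∨ i = 3 ∨ (i = 0 ∨ i = 1 ∨ i = 5 ∨ i = 6)) with
          rfl | rfl | rfl | h'
        · exact absurd hb2 h2
        · rw [hc4] at h2; exact absurd hb2 h2
        · exact absurd hc2 h2
        · simpa using h'
      · obtain ⟨b', hb'⟩ := hb2
        obtain ⟨c', hc'⟩ : ∃ c', c = 2 * c' + 1 := ⟨c / 2, by omega⟩
        have h4 := one_binomial f ((X ^ 3 - 1) * (X - 1) ^ 3)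
          (-1 + X - X ^ 3 + X ^ 4 - 2 * X ^ 5 + 3 * X ^ 6 - 2 * X ^ 7 + X ^ 8 - X ^ 9 + X ^ 11 -
          (C a' * X ^ 5 + C b' * X ^ 4 + C c' * X ^ 3 + C b' * X ^ 2 + C a' * X) *
            ((X ^ 3 - 1) * (X - 1) ^ 3)) 12
          (by norm_num) hlc hf.unity (by
            rw [hfs, ha', hb', hc']
            simp only [map_add, map_mul, map_one, map_ofNat]
            ring)
        rw [hd] at h4
        by_contra hcon
        push Not at hcon
        have h5 : (mahlerMeasureZ f ^ 4) ^ 36 < 2 ^ 36 :=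
          pow_lt_pow_left₀ hcon (pow_nonneg hM 4) (by norm_num)
        rw [← pow_mul] at h5
        norm_num at h4 h5
        linarith
    · obtain ⟨b', hb'⟩ : ∃ b', b = 2 * b' + 1 := ⟨b / 2, by omega⟩
      by_cases hc2 : (2 : ℤ) ∣ c
      · obtain ⟨c', hc'⟩ := hc2
        have h4 := two_binomials f (X - 1) (1 - X ^ 3 -
          (C a' * X ^ 5 + C b' * X ^ 4 + C c' * X ^ 3 + C b' * X ^ 2 + C a' * X) * (X - 1)) 3 4
          (by norm_num) (by norm_num) hlc hf.unity (by
            rw [hfs, ha', hb', hc']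
            simp only [map_add, map_mul, map_one, map_ofNat]
            ring)
        rw [hd] at h4
        by_contra hcon
        push Not at hcon
        have h5 : (mahlerMeasureZ f ^ 4) ^ 7 < 2 ^ 7 :=
          pow_lt_pow_left₀ hcon (pow_nonneg hM 4) (by norm_num)
        have h6 : ((3 / 2 : ℝ) ^ 6) ^ 2 ≤ (mahlerMeasureZ f ^ (2 * (3 + 4))) ^ 2 :=
          pow_le_pow_left₀ (by norm_num) h4 2
        rw [← pow_mul] at h5
        rw [← pow_mul] at h6
        norm_num at h5 h6
        linarith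
      · obtain ⟨c', hc'⟩ : ∃ c', c = 2 * c' + 1 := ⟨c / 2, by omega⟩
        have h4 := one_binomial f (X - 1) (-
          ((C a' * X ^ 5 + C b' * X ^ 4 + C c' * X ^ 3 + C b' * X ^ 2 + C a' * X) * (X - 1))) 7
          (by norm_num) hlc hf.unity (by
            rw [hfs, ha', hb', hc']
            simp only [map_add, map_mul, map_one, map_ofNat]
            ring)
        rw [hd] at h4
        by_contra hcon
        push Not at hcon
        have h5 : (mahlerMeasureZ f ^ 4) ^ 21 < 2 ^ 21 :=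
          pow_lt_pow_left₀ hcon (pow_nonneg hM 4) (by norm_num)
        rw [← pow_mul] at h5
        norm_num at h4 h5
        linarith

end Pool.Agent.H25.AbDeg
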