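import Pool.Agent.H25.AbDeg.Setup
import Pool.Agent.H25.AbDeg.Six
import Pool.Agent.H21.Leh.Main

/-!
# The induction step
-/

open Polynomial N60ffa576 Module NumberField IntermediateField

open scoped Pointwise

namespace Pool.Agent.H25.AbDeg

open Pool.Agent.H21.Leh Pool.Agent.H25

/-- The inequality under the assumption `Free`. -/
theorem free_case {k F : Type*} [Field k] [NumberField k] [Field F] [NumberField F] [Algebra k F]
    [IsGalois ℚ F] [IsAbelianGalois ℚ k] (α : 𝓞 F)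
    (hk : ∀ x : k, algebraMap k F x ∈ ℚ⟮(α : F)⟯) (h2 : 2 ≤ (minpoly k (α : F)).natDegree)
    (h3 : (minpoly k (α : F)).natDegree ≤ 3) (hα0 : α ≠ 0) (hα : ∀ m, 0 < m → α ^ m ≠ 1)
    (hn : 8 ≤ dg α) (heven : Even (dg α)) (hfree : Free k α) : 2 ≤ MM α ^ 4 := by
  have hc : ∀ σ τ : Gal(k/ℚ), σ * τ = τ * σ := fun σ τ =>
    (inferInstance : IsMulCommutative Gal(k/ℚ)).is_comm.comm σ τ
  have hdg := dg_eq_mul (k := k) α hk
  obtain ⟨D⟩ := exists_data (k := k) α
  rcases (by omega : (minpoly k (α : F)).natDegree = 2 ∨ (minpoly k (α : F)).natDegree = 3) with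
    h | h
  · rw [h] at D hdg
    exact case_two hc D hdg (by omega) hα0 hα hfree
  · rw [h] at D hdg
    refine case_three hc D hdg ?_ hα0 hα hfree
    have := heven.two_dvd
    omega

/-- The descent in the absence of `Free`. -/
theorem descent_case {k F : Type*} [Field k] [NumberField k] [Field F] [NumberField F]
    [Algebra k F] (α : 𝓞 F)
    (hk : ∀ x : k, algebraMap k F x ∈ ℚ⟮(α : F)⟯) (hfree : ¬ Free k α) :
    ∃ (b : F) (m d : ℕ), IsIntegral ℤ b ∧ b ∈ ℚ⟮(α : F)⟯ ∧ 0 < m ∧ 0 < d ∧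
      b ^ m = (α : F) ^ (m * d) ∧ (minpoly ℤ b).natDegree < dg α ∧
      mahlerMeasureZ (minpoly ℤ b) ≤ MM α := by
  unfold Free at hfree
  push Not at hfree
  obtain ⟨σ, ρ, hσ, hρ, m, hm, hmα⟩ := hfree
  let K := ℚ⟮(α : F)⟯
  have hKint : IsIntegral ℤ (AdjoinSimple.gen ℚ (α : F)) := by
    have hinj : Function.Injective (algebraMap K F) := (algebraMap K F).injective
    have h2 : IsIntegral ℤ (algebraMap K F (AdjoinSimple.gen ℚ (α : F))) := isInt α
    exact (isIntegral_algHom_iff (IsScalarTower.toAlgHom ℤ K F) hinj).1 h2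
  set a' : 𝓞 K := ⟨AdjoinSimple.gen ℚ (α : F), hKint⟩ with ha'
  have ha'K : (a' : K) = AdjoinSimple.gen ℚ (α : F) := rfl
  have hmin' : minpoly ℤ (a' : K) = minpoly ℤ (α : F) :=
    (minpoly.algebraMap_eq (algebraMap K F).injective (a' : K)).symm
  have hne : ℚ⟮(a' : K) ^ m⟯ ≠ ⊤ := by
    intro htop
    have h2 : ℚ⟮(α : F)⟯ = ℚ⟮(α : F) ^ m⟯ := by
      have h3 : IntermediateField.lift (ℚ⟮(a' : K) ^ m⟯) = IntermediateField.lift ⊤ :=
        congrArg IntermediateField.lift htop
      have h4 : IntermediateField.lift (ℚ⟮(a' : K) ^ m⟯) = ℚ⟮(α : F) ^ m⟯ :=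
        IntermediateField.lift_adjoin_simple (F := ℚ) K ((a' : K) ^ m)
      have h5 : IntermediateField.lift (⊤ : IntermediateField ℚ K) = K :=
        IntermediateField.lift_top (F := ℚ) K
      exact h5.symm.trans (h3.symm.trans h4)
    have h4 : ℚ⟮(α : F) ^ m⟯ ≤ IntermediateField.fixedField (Subgroup.zpowers ρ) := by
      rw [IntermediateField.adjoin_simple_le_iff, IntermediateField.mem_fixedField_iff]
      intro g hg
      have h5 : Subgroup.zpowers ρ ≤ MulAction.stabilizer (F ≃ₐ[ℚ] F) ((α : F) ^ m) := by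
        rw [Subgroup.zpowers_le]
        change ρ ((α : F) ^ m) = (α : F) ^ m
        rw [map_pow]
        have h6 : (algebraMap (𝓞 F) F (ρ • α)) ^ m = (algebraMap (𝓞 F) F α) ^ m := by
          rw [← map_pow, ← hmα, map_pow]
        exact h6
      exact h5 hg
    apply hσ
    ext x
    have h5 := hk x
    rw [h2] at h5
    have h6 := h4 h5
    rw [IntermediateField.mem_fixedField_iff] at h6
    have h7 : ρ (algebraMap k F x) = algebraMap k F x := h6 _ (Subgroup.mem_zpowers _)
    rw [hρ] at h7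
    exact (algebraMap k F).injective h7
  obtain ⟨b, d, hd0, hbm, hlt, hle⟩ := descent_gen a' (gen_top ℚ F (α : F)) m hm hne
  have hminb : minpoly ℤ (algebraMap K F (b : K)) = minpoly ℤ (b : K) := by
    rw [minpoly.algebraMap_eq (algebraMap K F).injective]
  refine ⟨algebraMap K F (b : K), m, d, ?_, (b : K).2, hm, hd0, ?_, ?_, ?_⟩
  · exact (isInt b).map (IsScalarTower.toAlgHom ℤ K F)
  · have h2 : (b : K) ^ m = (a' : K) ^ (m * d) := by
      have := congrArg (fun z : 𝓞 K => (z : K)) hbm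
      simpa using this
    rw [← map_pow, h2, map_pow]
    rfl
  · rw [hminb]
    unfold dg at hlt ⊢
    rw [← hmin']
    exact hlt
  · rw [hminb]
    unfold MM at hle ⊢
    rw [← hmin']
    exact hle

end Pool.Agent.H25.AbDeg
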